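import Mathlib
set_option autoImplicit false

namespace Pool.Agent.H11.Furst

open MvPowerSeries

abbrev A := MvPowerSeries (Fin 2) ℚ

noncomputable def x : A := X 0
noncomputable def y : A := X 1

/-- the monomial `x^a y^b` exponent -/
noncomputable def ex (a b : ℕ) : Fin 2 →₀ ℕ := Finsupp.single 0 a + Finsupp.single 1 b

@[simp] lemma ex_zero (a b : ℕ) : ex a b 0 = a := by simp [ex]
@[simp] lemma ex_one (a b : ℕ) : ex a b 1 = b := by simp [ex]

lemma eq_ex (m : Fin 2 →₀ ℕ) : m = ex (m 0) (m 1) := by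
  ext i
  fin_cases i <;> simp

lemma ex_inj {m n : Fin 2 →₀ ℕ} (h0 : m 0 = n 0) (h1 : m 1 = n 1) : m = n := by
  rw [eq_ex m, eq_ex n, h0, h1]

lemma hasSubst_xy : PowerSeries.HasSubst (x * y : A) := by
  apply PowerSeries.HasSubst.of_constantCoeff_zero
  rw [map_mul]
  simp [x]

/-- `f(x) ↦ f(xy)` -/
noncomputable def dl : PowerSeries ℚ →+* A :=
  (PowerSeries.substAlgHom (R := ℚ) (S := ℚ) hasSubst_xy : PowerSeries ℚ →ₐ[ℚ] A).toRingHom

lemma xy_pow (d : ℕ) : (x * y : A) ^ d = monomial (ex d d) 1 := by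
  rw [mul_pow, x, y, X_pow_eq, X_pow_eq, monomial_mul_monomial, one_mul]
  rfl

lemma coeff_dl (f : PowerSeries ℚ) (m : Fin 2 →₀ ℕ) :
    coeff m (dl f) = if m 0 = m 1 then PowerSeries.coeff (m 0) f else 0 := by
  have h1 : dl f = PowerSeries.subst (x * y : A) f := by
    show PowerSeries.substAlgHom (R := ℚ) (S := ℚ) hasSubst_xy f = _
    rw [PowerSeries.coe_substAlgHom]
  classical
  rw [h1, PowerSeries.coeff_subst hasSubst_xy]
  rw [finsum_eq_single _ (m 0)]
  · rw [xy_pow, coeff_monomial]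
    by_cases h : m 0 = m 1
    · have : m = ex (m 0) (m 0) := ex_inj (by simp) (by simp [h])
      rw [if_pos this, if_pos h]; simp
    · have : ¬ m = ex (m 0) (m 0) := by
        intro hh
        apply h
        conv_rhs => rw [hh]
        simp
      rw [if_neg this, if_neg h]; simp
  · intro d hd
    rw [xy_pow, coeff_monomial, if_neg, smul_zero]
    intro hh
    apply hd
    rw [hh]; simp

lemma dl_X : dl PowerSeries.X = x * y := by
  show PowerSeries.substAlgHom (R := ℚ) (S := ℚ) hasSubst_xy PowerSeries.X = _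
  rw [PowerSeries.substAlgHom_X]

lemma dl_C (c : ℚ) : dl (PowerSeries.C c) = C c := by
  show PowerSeries.substAlgHom (R := ℚ) (S := ℚ) hasSubst_xy (PowerSeries.C c) = _
  rw [PowerSeries.coe_substAlgHom]
  exact PowerSeries.subst_C c

/-- the diagonal condition -/
def IsDiag (R : A) (f : PowerSeries ℚ) : Prop :=
  ∀ n : ℕ, coeff (ex n n) R = PowerSeries.coeff n f

lemma isDiag_dl (f : PowerSeries ℚ) : IsDiag (dl f) f := by
  intro n
  rw [coeff_dl]; simp

lemma IsDiag.add {R S : A} {f g : PowerSeries ℚ} (h1 : IsDiag R f) (h2 : IsDiag S g) :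
    IsDiag (R + S) (f + g) := by
  intro n
  rw [map_add, map_add, h1 n, h2 n]

/-- series supported in the additive submonoid `M` -/
def supp (M : AddSubmonoid (Fin 2 →₀ ℕ)) : Subring A where
  carrier := {f | ∀ m, m ∉ M → coeff m f = 0}
  mul_mem' := by
    intro f g hf hg m hm
    classical
    rw [coeff_mul]
    apply Finset.sum_eq_zero
    intro p hp
    rw [Finset.HasAntidiagonal.mem_antidiagonal] at hp
    by_cases h1 : p.1 ∈ M
    · by_cases h2 : p.2 ∈ M
      · exact absurd (hp ▸ M.add_mem h1 h2) hm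
      · rw [hg _ h2, mul_zero]
    · rw [hf _ h1, zero_mul]
  one_mem' := by
    intro m hm
    classical
    rw [coeff_one, if_neg]
    rintro rfl
    exact hm M.zero_mem
  add_mem' := by
    intro f g hf hg m hm
    rw [map_add, hf m hm, hg m hm, add_zero]
  zero_mem' := by
    intro m _
    simp
  neg_mem' := by
    intro f hf m hm
    rw [map_neg, hf m hm, neg_zero]

lemma mem_supp {M : AddSubmonoid (Fin 2 →₀ ℕ)} {f : A} :
    f ∈ supp M ↔ ∀ m, m ∉ M → coeff m f = 0 := Iff.rfl

lemma inv_mem_supp {M : AddSubmonoid (Fin 2 →₀ ℕ)} {f : A} (hf : f ∈ supp M)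
    (h0 : constantCoeff f ≠ 0) : f⁻¹ ∈ supp M := by
  classical
  have key : ∀ n : ℕ, ∀ m : Fin 2 →₀ ℕ, m 0 + m 1 = n → m ∉ M → coeff m f⁻¹ = 0 := by
    intro n
    induction n using Nat.strong_induction_on with
    | _ n ih =>
      intro m hmn hm
      have h1 : coeff m (f * f⁻¹) = 0 := by
        rw [MvPowerSeries.mul_inv_cancel f h0, coeff_one, if_neg]
        rintro rfl
        exact hm M.zero_mem
      rw [coeff_mul] at h1
      have h2 : (∑ p ∈ Finset.HasAntidiagonal.antidiagonal m, coeff p.1 f * coeff p.2 f⁻¹)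
          = coeff 0 f * coeff m f⁻¹ := by
        rw [Finset.sum_eq_single (0, m)]
        · intro p hp hne
          rw [Finset.HasAntidiagonal.mem_antidiagonal] at hp
          by_cases hp1 : p.1 ∈ M
          · have hp2 : p.2 ∉ M := fun h => hm (hp ▸ M.add_mem hp1 h)
            have hlt : p.2 0 + p.2 1 < n := by
              have e0 : p.1 0 + p.2 0 = m 0 := by rw [← hp]; rfl
              have e1 : p.1 1 + p.2 1 = m 1 := by rw [← hp]; rfl
              rcases Nat.eq_zero_or_pos (p.1 0 + p.1 1) with hz | hz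
              · exfalso
                apply hne
                have : p.1 = 0 := ex_inj (by simp; omega) (by simp; omega)
                have h3 : p.2 = m := by rw [← hp, this, zero_add]
                exact Prod.ext this h3
              · omega
            rw [ih _ hlt p.2 rfl hp2, mul_zero]
          · rw [hf _ hp1, zero_mul]
        · intro h
          exact absurd (Finset.HasAntidiagonal.mem_antidiagonal.2 (zero_add m)) h
      rw [h2] at h1
      rcases mul_eq_zero.1 h1 with h | h
      · exact absurd h h0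
      · exact h
  intro m hm
  exact key _ m rfl hm

/-- exponents with `m 0 ≤ m 1` -/
def Mup : AddSubmonoid (Fin 2 →₀ ℕ) where
  carrier := {m | m 0 ≤ m 1}
  add_mem' := by
    intro a b ha hb
    simp only [Set.mem_ofPred_eq, Finsupp.add_apply] at *
    omega
  zero_mem' := by simp

/-- exponents with `m 1 ≤ m 0` -/
def Mlo : AddSubmonoid (Fin 2 →₀ ℕ) where
  carrier := {m | m 1 ≤ m 0}
  add_mem' := by
    intro a b ha hb
    simp only [Set.mem_ofPred_eq, Finsupp.add_apply] at *
    omega
  zero_mem' := by simp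

lemma mem_Mup {m : Fin 2 →₀ ℕ} : m ∈ Mup ↔ m 0 ≤ m 1 := Iff.rfl
lemma mem_Mlo {m : Fin 2 →₀ ℕ} : m ∈ Mlo ↔ m 1 ≤ m 0 := Iff.rfl

lemma dl_mem_up (f : PowerSeries ℚ) : dl f ∈ supp Mup := by
  intro m hm
  rw [mem_Mup] at hm
  rw [coeff_dl, if_neg (by omega)]

lemma dl_mem_lo (f : PowerSeries ℚ) : dl f ∈ supp Mlo := by
  intro m hm
  rw [mem_Mlo] at hm
  rw [coeff_dl, if_neg (by omega)]

lemma x_mem_lo : x ∈ supp Mlo := by
  intro m hm
  classical
  rw [mem_Mlo] at hm
  rw [x, coeff_X, if_neg]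
  rintro rfl
  simp at hm

lemma y_mem_up : y ∈ supp Mup := by
  intro m hm
  classical
  rw [mem_Mup] at hm
  rw [y, coeff_X, if_neg]
  rintro rfl
  simp at hm

lemma coeff_x_mul (f : A) (a b : ℕ) : coeff (ex (a + 1) b) (x * f) = coeff (ex a b) f := by
  have : ex (a + 1) b = Finsupp.single 0 1 + ex a b := ex_inj (by simp; omega) (by simp)
  rw [this, x, X]
  rw [coeff_add_monomial_mul, one_mul]

lemma coeff_y_mul (f : A) (a b : ℕ) : coeff (ex a (b + 1)) (y * f) = coeff (ex a b) f := by
  have : ex a (b + 1) = Finsupp.single 1 1 + ex a b := ex_inj (by simp) (by simp; omega)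
  rw [this, y, X]
  rw [coeff_add_monomial_mul, one_mul]

lemma coeff_x_mul_zero (f : A) (b : ℕ) : coeff (ex 0 b) (x * f) = 0 := by
  classical
  rw [x, X, coeff_monomial_mul, if_neg]
  intro h
  have := h 0
  simp at this

lemma coeff_y_mul_zero (f : A) (a : ℕ) : coeff (ex a 0) (y * f) = 0 := by
  classical
  rw [y, X, coeff_monomial_mul, if_neg]
  intro h
  have := h 1
  simp at this

/-- `y^2 f` has zero diagonal when `f` is supported on `m 0 ≤ m 1` -/
lemma diag_y_mul {f : A} (hf : f ∈ supp Mup) : IsDiag (y * f) 0 := by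
  intro n
  rcases n with _ | n
  · rw [coeff_y_mul_zero]; simp
  · rw [coeff_y_mul, hf _ (by rw [mem_Mup]; simp)]; simp

lemma diag_x_mul {f : A} (hf : f ∈ supp Mlo) : IsDiag (x * f) 0 := by
  intro n
  rcases n with _ | n
  · rw [coeff_x_mul_zero]; simp
  · rw [coeff_x_mul, hf _ (by rw [mem_Mlo]; simp)]; simp

end Pool.Agent.H11.Furst
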