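import Pool.Agent.H11.Furst
set_option autoImplicit false
namespace Pool.Agent.H11.Furst
open MvPowerSeries

/-- coercion ring hom -/
noncomputable abbrev cA : MvPolynomial (Fin 2) ℚ →+* A := MvPolynomial.coeToMvPowerSeries.ringHom

noncomputable abbrev ι : Polynomial ℚ →+* PowerSeries ℚ := Polynomial.coeToPowerSeries.ringHom

/-- rational series -/
def Rat (f : A) : Prop :=
  ∃ P Q : MvPolynomial (Fin 2) ℚ, MvPolynomial.constantCoeff Q ≠ 0 ∧ f * cA Q = cA P

lemma Rat.add {f g : A} (hf : Rat f) (hg : Rat g) : Rat (f + g) := by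
  obtain ⟨P, Q, hQ, h⟩ := hf
  obtain ⟨P', Q', hQ', h'⟩ := hg
  refine ⟨P * Q' + P' * Q, Q * Q', by rw [map_mul]; exact mul_ne_zero hQ hQ', ?_⟩
  rw [map_mul, map_add, map_mul, map_mul, ← h, ← h']
  ring

lemma Rat.mul {f g : A} (hf : Rat f) (hg : Rat g) : Rat (f * g) := by
  obtain ⟨P, Q, hQ, h⟩ := hf
  obtain ⟨P', Q', hQ', h'⟩ := hg
  refine ⟨P * P', Q * Q', by rw [map_mul]; exact mul_ne_zero hQ hQ', ?_⟩
  rw [map_mul, map_mul, ← h, ← h']
  ring

lemma Rat.poly (P : MvPolynomial (Fin 2) ℚ) : Rat (cA P) :=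
  ⟨P, 1, by simp, by simp⟩

/-- evaluation at `xy` -/
noncomputable def ev : Polynomial ℚ →+* MvPolynomial (Fin 2) ℚ :=
  (Polynomial.aeval (MvPolynomial.X 0 * MvPolynomial.X 1 : MvPolynomial (Fin 2) ℚ)).toRingHom

lemma cA_X0 : cA (MvPolynomial.X 0) = x := by
  rw [MvPolynomial.coeToMvPowerSeries.ringHom_apply, MvPolynomial.coe_X]; rfl

lemma cA_X1 : cA (MvPolynomial.X 1) = y := by
  rw [MvPolynomial.coeToMvPowerSeries.ringHom_apply, MvPolynomial.coe_X]; rfl

lemma cA_C (c : ℚ) : cA (MvPolynomial.C c) = C c := by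
  rw [MvPolynomial.coeToMvPowerSeries.ringHom_apply, MvPolynomial.coe_C]

lemma ev_X : ev Polynomial.X = MvPolynomial.X 0 * MvPolynomial.X 1 := by
  show Polynomial.aeval _ _ = _
  rw [Polynomial.aeval_X]

lemma cA_comp_ev : cA.comp ev = dl.comp ι := by
  apply Polynomial.ringHom_ext
  · intro a
    show cA (Polynomial.aeval _ (Polynomial.C a)) = dl (ι (Polynomial.C a))
    rw [Polynomial.aeval_C, Polynomial.coeToPowerSeries.ringHom_apply, Polynomial.coe_C, dl_C]
    exact cA_C a
  · show cA (ev Polynomial.X) = dl (ι Polynomial.X)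
    rw [ev_X, map_mul, cA_X0, cA_X1, Polynomial.coeToPowerSeries.ringHom_apply, Polynomial.coe_X, dl_X]

lemma rat_dl_poly (a : Polynomial ℚ) : Rat (dl (ι a)) := by
  have : dl (ι a) = cA (ev a) := by
    have := congrArg (fun f => f a) cA_comp_ev
    exact this.symm
  rw [this]
  exact Rat.poly _

lemma eval₂_mem_up (h : Polynomial (PowerSeries ℚ)) : h.eval₂ dl y ∈ supp Mup := by
  rw [Polynomial.eval₂_eq_sum_range]
  apply Subring.sum_mem
  intro i _
  exact Subring.mul_mem _ (dl_mem_up _) (Subring.pow_mem _ y_mem_up _)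

theorem furst (q : Polynomial (Polynomial ℚ)) (G : PowerSeries ℚ)
    (hG : PowerSeries.constantCoeff G = 0) (hq : Polynomial.eval₂ ι G q = 0)
    (h1 : (q.coeff 1).coeff 0 ≠ 0) : ∃ S : A, Rat S ∧ IsDiag S G := by
  obtain ⟨g1, hg1⟩ := PowerSeries.X_dvd_iff.2 hG
  have hdlG : dl G = x * y * dl g1 := by rw [hg1, map_mul, dl_X]
  -- constant coefficient of q.coeff 0
  have hq0 : (q.coeff 0).coeff 0 = 0 := by
    have := congrArg PowerSeries.constantCoeff hq
    rw [Polynomial.hom_eval₂, hG, Polynomial.eval₂_at_zero, map_zero] at this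
    simpa using this
  obtain ⟨b1, hb1⟩ := Polynomial.X_dvd_iff.2 hq0
  -- factorisation
  have hroot : (q.map ι).IsRoot G := by
    rw [Polynomial.IsRoot, Polynomial.eval_map]; exact hq
  obtain ⟨h, hh⟩ := Polynomial.dvd_iff_isRoot.2 hroot
  set hh0 : A := h.eval₂ dl y with hhdef
  set hh1 : A := h.derivative.eval₂ dl y with hh1def
  set Qh : A := q.eval₂ (dl.comp ι) y with hQh
  set Qh' : A := q.derivative.eval₂ (dl.comp ι) y with hQh'
  have e1 : Qh = (y - dl G) * hh0 := by
    rw [hQh, ← Polynomial.eval₂_map, hh, Polynomial.eval₂_mul, Polynomial.eval₂_sub,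
      Polynomial.eval₂_X, Polynomial.eval₂_C]
  have e2 : Qh' = hh0 + (y - dl G) * hh1 := by
    rw [hQh', ← Polynomial.eval₂_map, ← Polynomial.derivative_map, hh, Polynomial.derivative_mul,
      Polynomial.eval₂_add, Polynomial.eval₂_mul, Polynomial.eval₂_mul, Polynomial.eval₂_sub,
      Polynomial.eval₂_X, Polynomial.eval₂_C, Polynomial.derivative_sub, Polynomial.derivative_X,
      Polynomial.derivative_C, sub_zero, Polynomial.eval₂_one, one_mul]
  set Up : MvPolynomial (Fin 2) ℚ := MvPolynomial.X 0 * ev b1 + (q.divX).eval₂ ev (MvPolynomial.X 1)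
    with hUp
  have e3 : y * cA Up = Qh := by
    rw [hUp, map_add, map_mul, cA_X0, Polynomial.hom_eval₂, cA_comp_ev, cA_X1, hQh]
    conv_rhs => rw [← Polynomial.divX_mul_X_add q]
    rw [Polynomial.eval₂_add, Polynomial.eval₂_mul, Polynomial.eval₂_X, Polynomial.eval₂_C, hb1,
      map_mul]
    have : cA (ev b1) = (dl.comp ι) b1 := by rw [← cA_comp_ev]; rfl
    rw [this]
    have : (dl.comp ι) Polynomial.X = x * y := by
      rw [← cA_comp_ev]
      show cA (ev Polynomial.X) = _
      rw [ev_X, map_mul, cA_X0, cA_X1]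
    rw [this]
    ring
  have hUp0 : MvPolynomial.constantCoeff Up ≠ 0 := by
    rw [hUp, map_add, map_mul, MvPolynomial.constantCoeff_X, zero_mul, zero_add,
      Polynomial.hom_eval₂, MvPolynomial.constantCoeff_X, Polynomial.eval₂_at_zero,
      Polynomial.coeff_divX]
    have : (MvPolynomial.constantCoeff.comp ev) = Polynomial.constantCoeff := by
      apply Polynomial.ringHom_ext
      · intro a
        show MvPolynomial.constantCoeff (Polynomial.aeval _ (Polynomial.C a)) = _
        rw [Polynomial.aeval_C]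
        simp
      · show MvPolynomial.constantCoeff (ev Polynomial.X) = _
        rw [ev_X]; simp
    rw [this]
    exact h1
  have hy : (y : A) ≠ 0 := by
    intro h
    have := congrArg (coeff (ex 0 1)) h
    rw [show (y : A) = y * 1 by ring, coeff_y_mul] at this
    have h00 : ex 0 0 = 0 := by ext i; fin_cases i <;> simp
    rw [h00] at this
    simp at this
  have e4 : cA Up = (1 - x * dl g1) * hh0 := by
    apply mul_left_cancel₀ hy
    rw [e3, e1, hdlG]; ring
  have hcc : constantCoeff (cA Up) ≠ 0 := by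
    have : constantCoeff (cA Up) = MvPolynomial.constantCoeff Up := by
      rw [MvPolynomial.coeToMvPowerSeries.ringHom_apply]
      rw [← coeff_zero_eq_constantCoeff_apply, MvPolynomial.coeff_coe]
      rfl
    rw [this]; exact hUp0
  have hx0 : constantCoeff (1 - x * dl g1) = 1 := by
    rw [map_sub, map_mul, x, constantCoeff_X]; simp
  have hh0c : constantCoeff hh0 ≠ 0 := by
    intro h
    apply hcc
    rw [e4, map_mul, h, mul_zero]
  have hh0n : hh0 ≠ 0 := by
    intro h
    rw [h] at hh0c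
    simp at hh0c
  set S : A := y * Qh' * (cA Up)⁻¹ with hS
  have hSU : S * cA Up = y * Qh' := by
    rw [hS, mul_assoc, MvPowerSeries.inv_mul_cancel _ hcc, mul_one]
  set inv : A := (1 - x * dl g1)⁻¹ with hinv
  have hinv1 : inv * (1 - x * dl g1) = 1 := MvPowerSeries.inv_mul_cancel _ (by rw [hx0]; exact one_ne_zero)
  have hhinv : hh0⁻¹ * hh0 = 1 := MvPowerSeries.inv_mul_cancel _ hh0c
  -- the key identity
  have e5 : S = y * inv + y * (y * (hh1 * hh0⁻¹)) := by
    have hU0 : (cA Up) ≠ 0 := by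
      intro h; rw [h] at hcc; simp at hcc
    apply mul_right_cancel₀ hU0
    rw [hSU, e2, hdlG, e4]
    have t1 : (y * inv + y * (y * (hh1 * hh0⁻¹))) * ((1 - x * dl g1) * hh0)
        = y * (inv * (1 - x * dl g1)) * hh0 + y * y * hh1 * (1 - x * dl g1) * (hh0⁻¹ * hh0) := by ring
    rw [t1, hinv1, hhinv]
    ring
  have e6 : y * inv = y * 1 + dl G + x * (x * y * (dl g1 * dl g1) * inv) := by
    have : inv = 1 + x * dl g1 + x * dl g1 * (x * dl g1) * inv := by
      have h2 : inv = 1 + x * dl g1 * inv := by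
        have h3 : inv * (1 - x * dl g1) = inv - x * dl g1 * inv := by ring
        rw [hinv1] at h3
        rw [h3]; ring
      calc inv = 1 + x * dl g1 * inv := h2
        _ = 1 + x * dl g1 * (1 + x * dl g1 * inv) := congrArg (fun t => 1 + x * dl g1 * t) h2
        _ = _ := by ring
    calc y * inv = y * (1 + x * dl g1 + x * dl g1 * (x * dl g1) * inv) := by rw [← this]
      _ = _ := by rw [hdlG]; ring
  refine ⟨S, ?_, ?_⟩
  · refine ⟨MvPolynomial.X 1 * q.derivative.eval₂ ev (MvPolynomial.X 1), Up, hUp0, ?_⟩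
    rw [hSU, map_mul, cA_X1, Polynomial.hom_eval₂, cA_comp_ev, cA_X1]
  · have hinvlo : inv ∈ supp Mlo := by
      apply inv_mem_supp
      · exact Subring.sub_mem _ (Subring.one_mem _) (Subring.mul_mem _ x_mem_lo (dl_mem_lo _))
      · rw [hx0]; exact one_ne_zero
    have hxy : x * y ∈ supp Mlo := by
      rw [← dl_X]; exact dl_mem_lo _
    have d1 : IsDiag (y * 1) 0 := diag_y_mul (Subring.one_mem _)
    have d2 : IsDiag (dl G) G := isDiag_dl G
    have d3 : IsDiag (x * (x * y * (dl g1 * dl g1) * inv)) 0 := diag_x_mul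
      (Subring.mul_mem _ (Subring.mul_mem _ hxy (Subring.mul_mem _ (dl_mem_lo _) (dl_mem_lo _))) hinvlo)
    have d4 : IsDiag (y * (y * (hh1 * hh0⁻¹))) 0 := diag_y_mul
      (Subring.mul_mem _ y_mem_up (Subring.mul_mem _ (eval₂_mem_up _)
        (inv_mem_supp (eval₂_mem_up _) hh0c)))
    rw [e5, e6]
    have := ((d1.add d2).add d3).add d4
    simpa using this

end Pool.Agent.H11.Furst
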