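import Pool.Agent.H11.Furst2
set_option autoImplicit false
namespace Pool.Agent.H11.Furst
open MvPowerSeries

lemma isDiag_X_mul {S : A} {g : PowerSeries ℚ} (h : IsDiag S g) :
    IsDiag (dl PowerSeries.X * S) (PowerSeries.X * g) := by
  intro n
  rw [dl_X, mul_assoc]
  rcases n with _ | n
  · rw [coeff_x_mul_zero]; simp
  · rw [coeff_x_mul, coeff_y_mul, h n, PowerSeries.coeff_succ_X_mul]

lemma isDiag_X_pow_mul {S : A} {g : PowerSeries ℚ} (h : IsDiag S g) (M : ℕ) :
    IsDiag (dl PowerSeries.X ^ M * S) (PowerSeries.X ^ M * g) := by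
  induction M with
  | zero => simpa using h
  | succ M ih =>
    have := isDiag_X_mul ih
    rw [pow_succ', pow_succ', mul_assoc, mul_assoc]
    exact this

lemma ι_inj : Function.Injective ι := Polynomial.coe_injective ℚ

lemma ι_X : ι Polynomial.X = PowerSeries.X := by
  rw [Polynomial.coeToPowerSeries.ringHom_apply, Polynomial.coe_X]

lemma coeff_ι (a : Polynomial ℚ) (n : ℕ) : PowerSeries.coeff n (ι a) = a.coeff n := by
  rw [Polynomial.coeToPowerSeries.ringHom_apply, Polynomial.coeff_coe]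

theorem alg_diag (F : PowerSeries ℚ)
    (hF : ∃ p : Polynomial (Polynomial ℚ), p ≠ 0 ∧ Polynomial.eval₂ ι F p = 0) :
    ∃ S : A, Rat S ∧ IsDiag S F := by
  classical
  -- minimal polynomial
  have hex : ∃ n : ℕ, ∃ p : Polynomial (Polynomial ℚ), p ≠ 0 ∧ Polynomial.eval₂ ι F p = 0 ∧
      p.natDegree = n := by
    obtain ⟨p, h1, h2⟩ := hF
    exact ⟨_, p, h1, h2, rfl⟩
  obtain ⟨p, hp0, hpF, hpn⟩ := Nat.find_spec hex
  have hmin : ∀ p' : Polynomial (Polynomial ℚ), p' ≠ 0 → Polynomial.eval₂ ι F p' = 0 →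
      p.natDegree ≤ p'.natDegree := by
    intro p' h1 h2
    rw [hpn]
    exact Nat.find_min' hex ⟨p', h1, h2, rfl⟩
  have hdeg : p.natDegree ≠ 0 := by
    intro h
    rw [Polynomial.natDegree_eq_zero] at h
    obtain ⟨c, hc⟩ := h
    rw [← hc, Polynomial.eval₂_C] at hpF
    apply hp0
    rw [← hc]
    have : c = 0 := ι_inj (by rw [hpF, map_zero])
    rw [this, Polynomial.C_0]
  have hder0 : p.derivative ≠ 0 := by
    intro h
    exact hdeg (Polynomial.natDegree_eq_zero_of_derivative_eq_zero h)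
  set D : PowerSeries ℚ := Polynomial.eval₂ ι F p.derivative with hD
  have hDne : D ≠ 0 := by
    intro h
    have := hmin _ hder0 h
    have := Polynomial.natDegree_derivative_lt hdeg
    omega
  have hexN : ∃ n, PowerSeries.coeff n D ≠ 0 := by
    by_contra hcon
    push Not at hcon
    exact hDne (PowerSeries.ext (by simpa using hcon))
  set N := Nat.find hexN with hN
  have hN1 : PowerSeries.coeff N D ≠ 0 := Nat.find_spec hexN
  have hN2 : ∀ i < N, PowerSeries.coeff i D = 0 := by
    intro i hi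
    by_contra h
    exact Nat.find_min hexN hi h
  set M := N + 1 with hM
  set a : Polynomial ℚ := PowerSeries.trunc (M + 1) F with ha
  obtain ⟨g, hg⟩ : (PowerSeries.X : PowerSeries ℚ) ^ (M + 1) ∣ F - ι a := by
    rw [PowerSeries.X_pow_dvd_iff]
    intro m hm
    rw [map_sub, coeff_ι, ha, PowerSeries.coeff_trunc, if_pos hm, sub_self]
  set G : PowerSeries ℚ := PowerSeries.X * g with hG
  have hFa : F - ι a = PowerSeries.X ^ M * G := by
    rw [hg, hG, pow_succ]; ring
  have hFG : F = ι a + PowerSeries.X ^ M * G := by rw [← hFa]; ring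
  set t := Polynomial.taylor a p with ht
  set r : Polynomial (Polynomial ℚ) :=
    t.comp (Polynomial.C (Polynomial.X ^ M) * Polynomial.X) with hr
  have hrc : ∀ k, r.coeff k = t.coeff k * (Polynomial.X ^ M) ^ k := by
    intro k
    rw [hr, Polynomial.comp_C_mul_X_coeff]
  have hrG : Polynomial.eval₂ ι G r = 0 := by
    rw [hr, Polynomial.eval₂_comp, Polynomial.eval₂_mul, Polynomial.eval₂_C, Polynomial.eval₂_X,
      ht, Polynomial.taylor_apply, Polynomial.eval₂_comp, Polynomial.eval₂_add,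
      Polynomial.eval₂_X, Polynomial.eval₂_C, map_pow, ι_X, add_comm, ← hFG]
    exact hpF
  have hD1 : (PowerSeries.X : PowerSeries ℚ) ^ M ∣ D - ι (p.derivative.eval a) := by
    have e1 : D = (p.derivative.map ι).eval F := by rw [hD, Polynomial.eval_map]
    have e2 : ι (p.derivative.eval a) = (p.derivative.map ι).eval (ι a) := by
      rw [Polynomial.eval_map, Polynomial.eval₂_at_apply]
    rw [e1, e2]
    refine dvd_trans ?_ (Polynomial.sub_dvd_eval_sub F (ι a) (p.derivative.map ι))
    rw [hFa]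
    exact dvd_mul_right _ _
  have hD2 : ∀ i < M, (p.derivative.eval a).coeff i = PowerSeries.coeff i D := by
    intro i hi
    have := PowerSeries.X_pow_dvd_iff.1 hD1 i hi
    rw [map_sub, coeff_ι] at this
    linarith
  have ht1 : t.coeff 1 = p.derivative.eval a := by rw [ht, Polynomial.taylor_coeff_one]
  obtain ⟨u, hu⟩ : (Polynomial.X : Polynomial ℚ) ^ N ∣ p.derivative.eval a := by
    rw [Polynomial.X_pow_dvd_iff]
    intro i hi
    rw [hD2 i (by omega), hN2 i hi]
  have hr1 : r.coeff 1 = Polynomial.X ^ (N + M) * u := by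
    rw [hrc, ht1, hu, pow_one, pow_add]; ring
  have hrk : ∀ k, 1 ≤ k → (Polynomial.X : Polynomial ℚ) ^ (N + M) ∣ r.coeff k := by
    intro k hk
    rcases Nat.lt_or_ge k 2 with h2 | h2
    · have : k = 1 := by omega
      rw [this, hr1]
      exact dvd_mul_right _ _
    · rw [hrc, ← pow_mul]
      refine Dvd.dvd.mul_left (pow_dvd_pow _ ?_) _
      nlinarith
  have hr0 : (Polynomial.X : Polynomial ℚ) ^ (N + M) ∣ r.coeff 0 := by
    have hdiv : Polynomial.C ((Polynomial.X : Polynomial ℚ) ^ (N + M)) ∣ r.divX := by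
      rw [Polynomial.C_dvd_iff_dvd_coeff]
      intro i
      rw [Polynomial.coeff_divX]
      exact hrk _ (by omega)
    obtain ⟨s, hs⟩ := hdiv
    have e1 : Polynomial.eval₂ ι G (r.divX * Polynomial.X + Polynomial.C (r.coeff 0)) = 0 := by
      rw [Polynomial.divX_mul_X_add]; exact hrG
    rw [hs, Polynomial.eval₂_add, Polynomial.eval₂_mul, Polynomial.eval₂_mul, Polynomial.eval₂_C,
      Polynomial.eval₂_C, Polynomial.eval₂_X, map_pow, ι_X] at e1
    rw [Polynomial.X_pow_dvd_iff]
    intro i hi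
    have e2 : ι (r.coeff 0) = PowerSeries.X ^ (N + M) * (-(Polynomial.eval₂ ι G s * G)) := by
      linear_combination e1
    have e3 := PowerSeries.X_pow_dvd_iff.1 (Dvd.intro _ e2.symm) i hi
    rw [coeff_ι] at e3
    exact e3
  obtain ⟨q, hq⟩ : Polynomial.C ((Polynomial.X : Polynomial ℚ) ^ (N + M)) ∣ r := by
    rw [Polynomial.C_dvd_iff_dvd_coeff]
    intro i
    rcases Nat.eq_zero_or_pos i with h | h
    · rw [h]; exact hr0
    · exact hrk i h
  have hqG : Polynomial.eval₂ ι G q = 0 := by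
    rw [hq, Polynomial.eval₂_mul, Polynomial.eval₂_C, map_pow, ι_X] at hrG
    rcases mul_eq_zero.1 hrG with h | h
    · exact absurd h (pow_ne_zero _ PowerSeries.X_ne_zero)
    · exact h
  have hq1 : (q.coeff 1).coeff 0 ≠ 0 := by
    have e1 : Polynomial.X ^ (N + M) * q.coeff 1 = Polynomial.X ^ (N + M) * u := by
      rw [← hr1, hq, Polynomial.coeff_C_mul]
    have e2 : q.coeff 1 = u :=
      mul_left_cancel₀ (pow_ne_zero _ Polynomial.X_ne_zero) e1
    rw [e2]
    have e3 := hD2 N (by omega)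
    rw [hu] at e3
    have e4 : (Polynomial.X ^ N * u).coeff (0 + N) = u.coeff 0 := Polynomial.coeff_X_pow_mul _ _ _
    rw [zero_add, e3] at e4
    rw [← e4]
    exact hN1
  obtain ⟨S, hS1, hS2⟩ := furst q G (by rw [hG]; simp) hqG hq1
  refine ⟨dl (ι a) + dl PowerSeries.X ^ M * S, ?_, ?_⟩
  · refine (rat_dl_poly a).add (Rat.mul ?_ hS1)
    have : dl PowerSeries.X ^ M = dl (ι (Polynomial.X ^ M)) := by
      rw [map_pow, ι_X, map_pow]
    rw [this]
    exact rat_dl_poly _
  · have := (isDiag_dl (ι a)).add (isDiag_X_pow_mul hS2 M)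
    rw [← hFG] at this
    exact this

end Pool.Agent.H11.Furst
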