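import Mathlib

/-!
The Hasse diagram of `L(m,n)` is a system of `m` free fermions on a path with `m + n` sites.
-/

open Finset Matrix

namespace Pool.Agent.H11.LM

/-- `L(m,n)`: partitions with at most `m` parts, each at most `n`, written as weakly decreasing
sequences of length `m` with values in `{0, …, n}`, ordered componentwise. -/
abbrev L (m n : ℕ) : Type := {f : Fin m → Fin (n + 1) // Antitone f}

open Classical in
/-- The adjacency matrix over `ℝ` of the Hasse diagram of `L(m,n)`, as an undirected graph. -/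
noncomputable def A (m n : ℕ) : Matrix (L m n) (L m n) ℝ :=
  (SimpleGraph.hasse (L m n)).adjMatrix ℝ

variable {m n : ℕ}

/-- the strictly decreasing sequence attached to a partition -/
def X (l : L m n) : Fin m → ℤ := fun i => ((l.1 i : ℕ) : ℤ) + ((m : ℤ) - ((i : ℕ) : ℤ))

theorem X_strictAnti (l : L m n) : StrictAnti (X l) := by
  intro i j hij
  have h1 : l.1 j ≤ l.1 i := l.2 hij.le
  have h2 : (l.1 j : ℕ) ≤ (l.1 i : ℕ) := h1
  have h3 : (i : ℕ) < (j : ℕ) := hij
  unfold X
  omega

theorem X_bounds (l : L m n) (i : Fin m) : 1 ≤ X l i ∧ X l i ≤ m + n := by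
  have h1 := (l.1 i).2
  have h2 := i.2
  unfold X
  omega

theorem X_inj : Function.Injective (X : L m n → Fin m → ℤ) := by
  intro l μ h
  apply Subtype.ext
  funext i
  have h1 := congrFun h i
  unfold X at h1
  apply Fin.ext
  omega

theorem le_iff_X (l μ : L m n) : l ≤ μ ↔ ∀ i, X l i ≤ X μ i := by
  constructor
  · intro h i
    have h1 : l.1 i ≤ μ.1 i := h i
    have h2 : (l.1 i : ℕ) ≤ (μ.1 i : ℕ) := h1
    unfold X
    omega
  · intro h i
    have h1 := h i
    unfold X at h1
    show (l.1 i : ℕ) ≤ (μ.1 i : ℕ)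
    omega

theorem strictAnti_gap {x : Fin m → ℤ} (hx : StrictAnti x) :
    ∀ d : ℕ, ∀ i j : Fin m, (j : ℕ) = i + d → x j + d ≤ x i := by
  intro d
  induction d with
  | zero =>
    intro i j h
    have : i = j := Fin.ext (by omega)
    subst this
    simp
  | succ d ih =>
    intro i j h
    have hj : (j : ℕ) - 1 < m := by have := j.2; omega
    have h1 := ih i ⟨(j : ℕ) - 1, hj⟩ (by show (j : ℕ) - 1 = _; omega)
    have h2 : x j < x ⟨(j : ℕ) - 1, hj⟩ := by
      apply hx
      show (j : ℕ) - 1 < j
      omega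
    push_cast
    omega

theorem exists_X {x : Fin m → ℤ} (hx : StrictAnti x) (hb : ∀ i, 1 ≤ x i ∧ x i ≤ m + n) :
    ∃ l : L m n, X l = x := by
  have hlo : ∀ i : Fin m, (m : ℤ) - i ≤ x i := by
    intro i
    have hm : m - 1 < m := by have := i.2; omega
    have h1 := strictAnti_gap hx (m - 1 - i) i ⟨m - 1, hm⟩ (by
      show m - 1 = _
      have := i.2
      omega)
    have h2 := (hb ⟨m - 1, hm⟩).1
    have h3 : ((m - 1 - (i : ℕ) : ℕ) : ℤ) = (m : ℤ) - 1 - i := by
      have := i.2
      omega
    rw [h3] at h1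
    omega
  have hhi : ∀ i : Fin m, x i + i ≤ m + n := by
    intro i
    have hm : 0 < m := by have := i.2; omega
    have h1 := strictAnti_gap hx i ⟨0, hm⟩ i (by show (i : ℕ) = 0 + i; omega)
    have h2 := (hb ⟨0, hm⟩).2
    omega
  refine ⟨⟨fun i => ⟨(x i - ((m : ℤ) - i)).toNat, ?_⟩, ?_⟩, ?_⟩
  · have h1 := hlo i
    have h2 := hhi i
    omega
  · intro i j hij
    have h3 : (i : ℕ) ≤ (j : ℕ) := hij
    have h4 := strictAnti_gap hx (j - i) i j (by omega)
    show (x j - ((m : ℤ) - j)).toNat ≤ (x i - ((m : ℤ) - i)).toNat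
    have h5 : ((j - i : ℕ) : ℤ) = (j : ℤ) - i := by omega
    rw [h5] at h4
    omega
  · funext i
    unfold X
    have h1 := hlo i
    show (((x i - ((m : ℤ) - i)).toNat : ℕ) : ℤ) + _ = _
    omega

/-- adding `c` to coordinate `i` -/
def bump (x : Fin m → ℤ) (i : Fin m) (c : ℤ) : Fin m → ℤ := fun j => if j = i then x j + c else x j

theorem bump_self (x : Fin m → ℤ) (i : Fin m) (c : ℤ) : bump x i c i = x i + c := by
  simp [bump]

theorem bump_ne (x : Fin m → ℤ) {i j : Fin m} (c : ℤ) (h : j ≠ i) : bump x i c j = x j := by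
  simp [bump, h]

theorem covBy_iff (l μ : L m n) : l ⋖ μ ↔ ∃ i, X μ = bump (X l) i 1 := by
  constructor
  · rintro ⟨hlt, hmin⟩
    have hle := (le_iff_X l μ).mp hlt.le
    have hne : ∃ i, X l i < X μ i := by
      by_contra hcon
      push Not at hcon
      have : l = μ := X_inj (funext fun i => le_antisymm (hle i) (hcon i))
      exact hlt.ne this
    obtain ⟨i, hi, himin⟩ := WellFounded.has_min (wellFounded_lt : WellFounded
      ((· < ·) : Fin m → Fin m → Prop)) {i | X l i < X μ i} hne
    have hi' : X l i < X μ i := hi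
    have heq : ∀ j < i, X l j = X μ j := by
      intro j hj
      have := himin j
      have h2 : ¬ X l j < X μ j := fun h => this h hj
      exact le_antisymm (hle j) (not_lt.mp h2)
    have hx : StrictAnti (bump (X l) i 1) := by
      intro a b hab
      have h1 := X_strictAnti l hab
      by_cases ha : a = i
      · subst ha
        rw [bump_self, bump_ne _ _ hab.ne']
        omega
      · by_cases hb : b = i
        · subst hb
          rw [bump_self, bump_ne _ _ ha]
          have h2 := heq a hab
          have h3 := X_strictAnti μ hab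
          omega
        · rw [bump_ne _ _ ha, bump_ne _ _ hb]
          exact h1
    have hb : ∀ a, 1 ≤ bump (X l) i 1 a ∧ bump (X l) i 1 a ≤ m + n := by
      intro a
      have h1 := X_bounds l a
      by_cases ha : a = i
      · subst ha
        rw [bump_self]
        have h2 := X_bounds μ a
        omega
      · rw [bump_ne _ _ ha]
        exact h1
    obtain ⟨ν, hν⟩ := exists_X hx hb
    have hlν : l < ν := by
      apply lt_of_le_of_ne
      · rw [le_iff_X]
        intro a
        rw [hν]
        by_cases ha : a = i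
        · subst ha
          rw [bump_self]
          omega
        · rw [bump_ne _ _ ha]
      · rintro rfl
        have := congrFun hν i
        rw [bump_self] at this
        omega
    have hνμ : ν ≤ μ := by
      rw [le_iff_X]
      intro a
      rw [hν]
      by_cases ha : a = i
      · subst ha
        rw [bump_self]
        omega
      · rw [bump_ne _ _ ha]
        exact hle a
    rcases lt_or_eq_of_le hνμ with h | h
    · exact absurd h (hmin hlν)
    · exact ⟨i, by rw [← h, hν]⟩
  · rintro ⟨i, hi⟩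
    refine ⟨?_, ?_⟩
    · apply lt_of_le_of_ne
      · rw [le_iff_X]
        intro a
        rw [hi]
        by_cases ha : a = i
        · subst ha
          rw [bump_self]
          omega
        · rw [bump_ne _ _ ha]
      · rintro rfl
        have := congrFun hi i
        rw [bump_self] at this
        omega
    · intro ν h1 h2
      have h3 := (le_iff_X l ν).mp h1.le
      have h4 := (le_iff_X ν μ).mp h2.le
      rw [hi] at h4
      have h5 : ∀ a, a ≠ i → X ν a = X l a := by
        intro a ha
        have := h4 a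
        rw [bump_ne _ _ ha] at this
        exact le_antisymm this (h3 a)
      have h6 := h4 i
      rw [bump_self] at h6
      have h7 := h3 i
      rcases eq_or_lt_of_le h7 with h8 | h8
      · apply h1.ne
        apply X_inj
        funext a
        by_cases ha : a = i
        · rw [ha]; exact h8
        · exact (h5 a ha).symm
      · apply h2.ne
        apply X_inj
        funext a
        rw [hi]
        by_cases ha : a = i
        · rw [ha, bump_self]; omega
        · rw [bump_ne _ _ ha]; exact h5 a ha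

theorem bump_inj (x : Fin m → ℤ) {i j : Fin m} {c : ℤ} (hc : c ≠ 0)
    (h : bump x i c = bump x j c) : i = j := by
  by_contra hne
  have := congrFun h i
  rw [bump_self, bump_ne _ _ hne] at this
  omega

theorem bump_eq_iff (x y : Fin m → ℤ) (i : Fin m) : x = bump y i 1 ↔ y = bump x i (-1) := by
  constructor
  · intro h
    funext a
    have := congrFun h a
    unfold bump at this ⊢
    split_ifs at this ⊢ <;> omega
  · intro h
    funext a
    have := congrFun h a
    unfold bump at this ⊢
    split_ifs at this ⊢ <;> omega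

/-- a sum over the neighbours on one side -/
theorem side_sum (ψ : (Fin m → ℤ) → ℝ) (l : L m n) (c : ℤ) (hc : c ≠ 0)
    (h0 : ∀ i, (∀ μ : L m n, X μ ≠ bump (X l) i c) → ψ (bump (X l) i c) = 0)
    (P : L m n → Prop) [DecidablePred P] (hP : ∀ μ, P μ ↔ ∃ i, X μ = bump (X l) i c) :
    ∑ μ : L m n, (if P μ then ψ (X μ) else 0) = ∑ i, ψ (bump (X l) i c) := by
  classical
  have h1 : ∀ μ : L m n, (if P μ then ψ (X μ) else 0) =
      ∑ i, if X μ = bump (X l) i c then ψ (bump (X l) i c) else 0 := by
    intro μ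
    by_cases h : P μ
    · rw [if_pos h]
      obtain ⟨i, hi⟩ := (hP μ).mp h
      rw [Finset.sum_eq_single i]
      · rw [if_pos hi, hi]
      · intro j _ hj
        rw [if_neg]
        intro h2
        exact hj (bump_inj _ hc (h2.symm.trans hi))
      · intro h2
        exact absurd (mem_univ i) h2
    · rw [if_neg h]
      symm
      apply sum_eq_zero
      intro i _
      rw [if_neg]
      intro h2
      exact h ((hP μ).mpr ⟨i, h2⟩)
  rw [sum_congr rfl (fun μ _ => h1 μ), sum_comm]
  apply sum_congr rfl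
  intro i _
  by_cases h : ∃ μ : L m n, X μ = bump (X l) i c
  · obtain ⟨μ, hμ⟩ := h
    rw [Finset.sum_eq_single μ]
    · rw [if_pos hμ]
    · intro ν _ hν
      rw [if_neg]
      intro h2
      exact hν (X_inj (h2.trans hμ.symm))
    · intro h2
      exact absurd (mem_univ μ) h2
  · push Not at h
    rw [h0 i h]
    apply sum_eq_zero
    intro μ _
    split_ifs <;> rfl

/-- The action of the adjacency matrix. -/
theorem A_mulVec (ψ : (Fin m → ℤ) → ℝ)
    (hψ1 : ∀ x : Fin m → ℤ, (∃ i j, i ≠ j ∧ x i = x j) → ψ x = 0)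
    (hψ2 : ∀ x : Fin m → ℤ, (∃ i, x i = 0) → ψ x = 0)
    (hψ3 : ∀ x : Fin m → ℤ, (∃ i, x i = m + n + 1) → ψ x = 0) (l : L m n) :
    (A m n *ᵥ fun μ => ψ (X μ)) l = ∑ i, (ψ (bump (X l) i 1) + ψ (bump (X l) i (-1))) := by
  classical
  have hup : ∀ i, (∀ μ : L m n, X μ ≠ bump (X l) i 1) → ψ (bump (X l) i 1) = 0 := by
    intro i hno
    by_cases h1 : ∃ a b, a ≠ b ∧ bump (X l) i 1 a = bump (X l) i 1 b
    · exact hψ1 _ h1
    · push Not at h1
      by_cases h2 : bump (X l) i 1 i = m + n + 1
      · exact hψ3 _ ⟨i, h2⟩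
      · exfalso
        have hx : StrictAnti (bump (X l) i 1) := by
          intro a b hab
          apply lt_of_le_of_ne _ (h1 a b hab.ne).symm
          have h3 := X_strictAnti l hab
          unfold bump
          split_ifs <;> omega
        have hb : ∀ a, 1 ≤ bump (X l) i 1 a ∧ bump (X l) i 1 a ≤ m + n := by
          intro a
          have h3 := X_bounds l a
          by_cases ha : a = i
          · subst ha
            rw [bump_self] at h2 ⊢
            omega
          · rw [bump_ne _ _ ha]
            exact h3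
        obtain ⟨μ, hμ⟩ := exists_X hx hb
        exact hno μ hμ
  have hdown : ∀ i, (∀ μ : L m n, X μ ≠ bump (X l) i (-1)) → ψ (bump (X l) i (-1)) = 0 := by
    intro i hno
    by_cases h1 : ∃ a b, a ≠ b ∧ bump (X l) i (-1) a = bump (X l) i (-1) b
    · exact hψ1 _ h1
    · push Not at h1
      by_cases h2 : bump (X l) i (-1) i = 0
      · exact hψ2 _ ⟨i, h2⟩
      · exfalso
        have hx : StrictAnti (bump (X l) i (-1)) := by
          intro a b hab
          apply lt_of_le_of_ne _ (h1 a b hab.ne).symm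
          have h3 := X_strictAnti l hab
          unfold bump
          split_ifs <;> omega
        have hb : ∀ a, 1 ≤ bump (X l) i (-1) a ∧ bump (X l) i (-1) a ≤ m + n := by
          intro a
          have h3 := X_bounds l a
          by_cases ha : a = i
          · subst ha
            rw [bump_self] at h2 ⊢
            omega
          · rw [bump_ne _ _ ha]
            exact h3
        obtain ⟨μ, hμ⟩ := exists_X hx hb
        exact hno μ hμ
  have e1 := side_sum ψ l 1 one_ne_zero hup (fun μ => l ⋖ μ) (fun μ => covBy_iff l μ)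
  have e2 := side_sum ψ l (-1) (by norm_num) hdown (fun μ => μ ⋖ l) (fun μ => by
    rw [covBy_iff]
    exact exists_congr fun i => bump_eq_iff _ _ i)
  rw [sum_add_distrib, ← e1, ← e2, ← sum_add_distrib]
  unfold A Matrix.mulVec dotProduct
  apply sum_congr rfl
  intro μ _
  show (SimpleGraph.hasse (L m n)).adjMatrix ℝ l μ * ψ (X μ) = _
  rw [SimpleGraph.adjMatrix_apply]
  have hadj : (SimpleGraph.hasse (L m n)).Adj l μ ↔ l ⋖ μ ∨ μ ⋖ l := Iff.rfl
  by_cases h1 : l ⋖ μ
  · have h2 : ¬ μ ⋖ l := fun h => (h1.lt.trans h.lt).false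
    rw [if_pos (hadj.mpr (Or.inl h1)), if_pos h1, if_neg h2]
    ring
  · by_cases h2 : μ ⋖ l
    · rw [if_pos (hadj.mpr (Or.inr h2)), if_neg h1, if_pos h2]
      ring
    · rw [if_neg (fun h => (hadj.mp h).elim h1 h2), if_neg h1, if_neg h2]
      ring

/-- one-particle wave function -/
noncomputable def phi (M : ℕ) (s : ℕ) (x : ℤ) : ℝ := Real.sin (Real.pi * s * x / M)

/-- one-particle eigenvalue -/
noncomputable def lam (M : ℕ) (s : ℕ) : ℝ := 2 * Real.cos (Real.pi * s / M)

theorem phi_step (M s : ℕ) (x : ℤ) :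
    phi M s (x + 1) + phi M s (x - 1) = lam M s * phi M s x := by
  unfold phi lam
  have h1 : Real.pi * s * ((x + 1 : ℤ) : ℝ) / M = Real.pi * s * x / M + Real.pi * s / M := by
    push_cast
    ring
  have h2 : Real.pi * s * ((x - 1 : ℤ) : ℝ) / M = Real.pi * s * x / M - Real.pi * s / M := by
    push_cast
    ring
  rw [h1, h2, Real.sin_add, Real.sin_sub]
  ring

theorem phi_zero (M s : ℕ) : phi M s 0 = 0 := by
  simp [phi]

theorem phi_top {M : ℕ} (hM : 0 < M) (s : ℕ) (x : ℤ) (hx : x = M) : phi M s x = 0 := by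
  unfold phi
  have hc : (M : ℝ) ≠ 0 := Nat.cast_ne_zero.mpr hM.ne'
  have : Real.pi * s * (x : ℝ) / M = s * Real.pi := by
    rw [hx]
    push_cast
    field_simp
  rw [this]
  exact Real.sin_nat_mul_pi s

/-- Slater determinant -/
noncomputable def psi (M : ℕ) (s : Fin m → ℕ) (x : Fin m → ℤ) : ℝ :=
  (Matrix.of fun i j => phi M (s i) (x j)).det

theorem psi_zero1 (M : ℕ) (s : Fin m → ℕ) (x : Fin m → ℤ) (h : ∃ i j, i ≠ j ∧ x i = x j) :
    psi M s x = 0 := by
  obtain ⟨i, j, hij, h⟩ := h
  unfold psi
  apply Matrix.det_zero_of_column_eq hij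
  intro k
  show phi M (s k) (x i) = phi M (s k) (x j)
  rw [h]

theorem psi_zero2 (M : ℕ) (s : Fin m → ℕ) (x : Fin m → ℤ) (h : ∃ i, x i = 0) :
    psi M s x = 0 := by
  obtain ⟨i, h⟩ := h
  unfold psi
  apply Matrix.det_eq_zero_of_column_eq_zero i
  intro k
  show phi M (s k) (x i) = 0
  rw [h, phi_zero]

theorem psi_zero3 {M : ℕ} (hM : 0 < M) (s : Fin m → ℕ) (x : Fin m → ℤ)
    (h : ∃ i, x i = (M : ℤ)) : psi M s x = 0 := by
  obtain ⟨i, h⟩ := h
  unfold psi
  apply Matrix.det_eq_zero_of_column_eq_zero i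
  intro k
  show phi M (s k) (x i) = 0
  exact phi_top hM _ _ h

theorem trace_det (B : Matrix (Fin m) (Fin m) ℝ) (d : Fin m → ℝ) :
    ∑ j, (B.updateCol j (fun i => d i * B i j)).det = (∑ i, d i) * B.det := by
  simp only [Matrix.det_apply]
  rw [sum_comm, mul_sum]
  apply sum_congr rfl
  intro σ _
  have h1 : ∀ j : Fin m, ∏ k, (B.updateCol j (fun i => d i * B i j)) (σ k) k =
      d (σ j) * ∏ k, B (σ k) k := by
    intro j
    rw [← mul_prod_erase univ _ (mem_univ j), ← mul_prod_erase univ (fun k => B (σ k) k)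
      (mem_univ j), Matrix.updateCol_self, mul_assoc]
    congr 2
    apply prod_congr rfl
    intro k hk
    rw [mem_erase] at hk
    rw [Matrix.updateCol_ne hk.1]
  simp_rw [h1]
  rw [← smul_sum, ← sum_mul, Equiv.sum_comp σ d, mul_smul_comm]

theorem psi_step (M : ℕ) (s : Fin m → ℕ) (x : Fin m → ℤ) :
    ∑ i, (psi M s (bump x i 1) + psi M s (bump x i (-1))) = (∑ i, lam M (s i)) * psi M s x := by
  have h1 : ∀ (i : Fin m) (c : ℤ), psi M s (bump x i c) =
      ((Matrix.of fun a b => phi M (s a) (x b)).updateCol i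
        (fun a => phi M (s a) (x i + c))).det := by
    intro i c
    unfold psi
    congr 1
    ext a b
    rw [Matrix.updateCol_apply]
    show phi M (s a) (bump x i c b) = _
    unfold bump
    split_ifs with h
    · rw [h]
    · rfl
  have h2 : ∀ i : Fin m, psi M s (bump x i 1) + psi M s (bump x i (-1)) =
      ((Matrix.of fun a b => phi M (s a) (x b)).updateCol i
        (fun a => lam M (s a) * (Matrix.of fun a b => phi M (s a) (x b)) a i)).det := by
    intro i
    rw [h1, h1, ← Matrix.det_updateCol_add]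
    congr 2
    funext a
    show phi M (s a) (x i + 1) + phi M (s a) (x i + -1) = lam M (s a) * phi M (s a) (x i)
    rw [← phi_step]
    rfl
  rw [sum_congr rfl (fun i _ => h2 i), trace_det]
  rfl

/-- Slater determinants are eigenvectors. -/
theorem A_psi (s : Fin m → ℕ) :
    (A m n *ᵥ fun μ => psi (m + n + 1) s (X μ)) =
      (∑ i, lam (m + n + 1) (s i)) • fun μ : L m n => psi (m + n + 1) s (X μ) := by
  funext l
  rw [A_mulVec (psi (m + n + 1) s) (psi_zero1 _ s) (psi_zero2 _ s)
    (fun x h => psi_zero3 (Nat.succ_pos _) s x (by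
      obtain ⟨i, hi⟩ := h
      exact ⟨i, by rw [hi]; push_cast; ring⟩)), psi_step]
  rfl

/-! ### the one-particle matrix is invertible -/

theorem lam_ne {M s t : ℕ} (hM : 0 < M) (hs : s < M) (ht : t < M) (hst : s ≠ t) :
    lam M s ≠ lam M t := by
  intro h
  apply hst
  have hc : (0 : ℝ) < M := Nat.cast_pos.mpr hM
  unfold lam at h
  have h1 : Real.cos (Real.pi * s / M) = Real.cos (Real.pi * t / M) := by linarith
  have hmem : ∀ a : ℕ, a < M → Real.pi * a / M ∈ Set.Icc 0 Real.pi := by
    intro a ha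
    have ha' : (a : ℝ) ≤ M := by exact_mod_cast ha.le
    constructor
    · have := Real.pi_pos
      positivity
    · rw [div_le_iff₀ hc]
      exact mul_le_mul_of_nonneg_left ha' Real.pi_pos.le
  have h2 := Real.injOn_cos (hmem s hs) (hmem t ht) h1
  have h3 : (s : ℝ) = t := by
    have := Real.pi_pos.ne'
    field_simp at h2
    exact h2
  exact_mod_cast h3

theorem orth {N s t : ℕ} (hs : s < N + 1) (ht : t < N + 1) (hst : s ≠ t) :
    ∑ x ∈ range N, phi (N + 1) s (x + 1) * phi (N + 1) t (x + 1) = 0 := by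
  have hne := lam_ne (Nat.succ_pos N) hs ht hst
  have h1 : (lam (N + 1) s - lam (N + 1) t) *
      ∑ x ∈ range N, phi (N + 1) s (x + 1) * phi (N + 1) t (x + 1) = 0 := by
    rw [mul_sum]
    have h2 : ∀ x ∈ range N, (lam (N + 1) s - lam (N + 1) t) *
        (phi (N + 1) s (x + 1) * phi (N + 1) t (x + 1)) =
        (fun y : ℕ => phi (N + 1) s (y + 1) * phi (N + 1) t y -
          phi (N + 1) s y * phi (N + 1) t (y + 1)) (x + 1) -
        (fun y : ℕ => phi (N + 1) s (y + 1) * phi (N + 1) t y -
          phi (N + 1) s y * phi (N + 1) t (y + 1)) x := by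
      intro x _
      have e1 := phi_step (N + 1) s ((x : ℤ) + 1)
      have e2 := phi_step (N + 1) t ((x : ℤ) + 1)
      rw [add_sub_cancel_right] at e1 e2
      show _ = (phi (N + 1) s (((x + 1 : ℕ) : ℤ) + 1) * phi (N + 1) t ((x + 1 : ℕ) : ℤ) -
          phi (N + 1) s ((x + 1 : ℕ) : ℤ) * phi (N + 1) t (((x + 1 : ℕ) : ℤ) + 1)) -
        (phi (N + 1) s ((x : ℤ) + 1) * phi (N + 1) t x -
          phi (N + 1) s x * phi (N + 1) t ((x : ℤ) + 1))
      push_cast
      linear_combination (-phi (N + 1) t ((x : ℤ) + 1)) * e1 + phi (N + 1) s ((x : ℤ) + 1) * e2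
    rw [sum_congr rfl h2, Finset.sum_range_sub (fun y : ℕ => phi (N + 1) s (y + 1) *
      phi (N + 1) t y - phi (N + 1) s y * phi (N + 1) t (y + 1))]
    have e3 : phi (N + 1) s ((N : ℤ) + 1) = 0 := phi_top (Nat.succ_pos N) s _ (by push_cast; ring)
    have e4 : phi (N + 1) t ((N : ℤ) + 1) = 0 := phi_top (Nat.succ_pos N) t _ (by push_cast; ring)
    show phi (N + 1) s ((N : ℤ) + 1) * phi (N + 1) t N - phi (N + 1) s N *
      phi (N + 1) t ((N : ℤ) + 1) - (phi (N + 1) s (((0 : ℕ) : ℤ) + 1) *
      phi (N + 1) t ((0 : ℕ) : ℤ) - phi (N + 1) s ((0 : ℕ) : ℤ) *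
      phi (N + 1) t (((0 : ℕ) : ℤ) + 1)) = 0
    rw [e3, e4, Nat.cast_zero, phi_zero, phi_zero]
    ring
  exact (mul_eq_zero.mp h1).resolve_left (sub_ne_zero.mpr hne)

theorem self_pos {N s : ℕ} (hN : 0 < N) (hs0 : 0 < s) (hs : s < N + 1) :
    0 < ∑ x ∈ range N, phi (N + 1) s (x + 1) * phi (N + 1) s (x + 1) := by
  apply Finset.sum_pos'
  · intro x _
    exact mul_self_nonneg _
  · refine ⟨0, mem_range.mpr hN, ?_⟩
    apply mul_self_pos.mpr
    apply ne_of_gt
    unfold phi
    apply Real.sin_pos_of_pos_of_lt_pi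
    · have h1 : (0 : ℝ) < s := Nat.cast_pos.mpr hs0
      have h2 : (0 : ℝ) < ((N + 1 : ℕ) : ℝ) := Nat.cast_pos.mpr (Nat.succ_pos N)
      have := Real.pi_pos
      have h3 : (((((0 : ℕ) : ℤ) + 1 : ℤ)) : ℝ) = 1 := by norm_num
      rw [h3]
      positivity
    · have h2 : (0 : ℝ) < ((N + 1 : ℕ) : ℝ) := Nat.cast_pos.mpr (Nat.succ_pos N)
      have h3 : (((((0 : ℕ) : ℤ) + 1 : ℤ)) : ℝ) = 1 := by norm_num
      rw [h3, mul_one, div_lt_iff₀ h2]
      apply mul_lt_mul_of_pos_left _ Real.pi_pos
      exact_mod_cast hs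

/-- the matrix of one-particle states -/
noncomputable def Phi (N : ℕ) : Matrix (Fin N) (Fin N) ℝ :=
  Matrix.of fun a b => phi (N + 1) (a + 1) (((b : ℕ) : ℤ) + 1)

theorem Phi_inv (N : ℕ) : ∃ R : Matrix (Fin N) (Fin N) ℝ, Phi N * R = 1 ∧ R * Phi N = 1 := by
  rcases Nat.eq_zero_or_pos N with h0 | hN
  · subst h0
    exact ⟨1, by ext i; exact i.elim0, by ext i; exact i.elim0⟩
  · let g : Fin N → ℝ := fun a =>
      ∑ x ∈ range N, phi (N + 1) (a + 1) (x + 1) * phi (N + 1) (a + 1) (x + 1)
    have hg : ∀ a, g a ≠ 0 := fun a => (self_pos hN (Nat.succ_pos _) (by have := a.2; omega)).ne'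
    have h1 : Phi N * ((Phi N)ᵀ * Matrix.diagonal (fun a => (g a)⁻¹)) = 1 := by
      rw [← Matrix.mul_assoc]
      have h2 : Phi N * (Phi N)ᵀ = Matrix.diagonal g := by
        ext a b
        rw [Matrix.mul_apply]
        have h3 : ∑ j, Phi N a j * (Phi N)ᵀ j b =
            ∑ x ∈ range N, phi (N + 1) (a + 1) (x + 1) * phi (N + 1) (b + 1) (x + 1) := by
          rw [← Fin.sum_univ_eq_sum_range
            (fun x : ℕ => phi (N + 1) (a + 1) ((x : ℤ) + 1) * phi (N + 1) (b + 1) ((x : ℤ) + 1))]
          rfl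
        rw [h3]
        by_cases hab : a = b
        · subst hab
          rw [Matrix.diagonal_apply_eq]
        · rw [Matrix.diagonal_apply_ne _ hab]
          apply orth
          · have := a.2; omega
          · have := b.2; omega
          · intro h
            exact hab (Fin.ext (by omega))
      rw [h2, Matrix.diagonal_mul_diagonal]
      have h4 : (fun i => g i * (g i)⁻¹) = fun _ => (1 : ℝ) := by
        funext i
        exact mul_inv_cancel₀ (hg i)
      rw [h4, Matrix.diagonal_one]
    exact ⟨_, h1, mul_eq_one_comm.mp h1⟩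

/-- a Cauchy–Binet type summation -/
theorem det_sum {N : ℕ} (F : Fin m → Fin N → ℝ) (G : Fin N → Fin m → ℝ) :
    ∑ y : Fin m → Fin N, (∏ j, G (y j) j) * (Matrix.of fun i j => F i (y j)).det =
      (Matrix.of fun i j => ∑ x, F i x * G x j).det := by
  simp only [Matrix.det_apply]
  simp_rw [mul_sum]
  rw [sum_comm]
  apply sum_congr rfl
  intro σ _
  have h1 : ∀ y : Fin m → Fin N, (∏ j, G (y j) j) *
      (Equiv.Perm.sign σ • ∏ i, (Matrix.of fun i j => F i (y j)) (σ i) i) =
      Equiv.Perm.sign σ • ∏ j, (F (σ j) (y j) * G (y j) j) := by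
    intro y
    rw [mul_smul_comm, prod_mul_distrib, mul_comm]
    rfl
  rw [sum_congr rfl (fun y _ => h1 y), ← smul_sum]
  congr 1
  show _ = ∏ i, ∑ x, F (σ i) x * G x i
  rw [Finset.prod_univ_sum]
  apply sum_congr
  · rw [Fintype.piFinset_univ]
  · intro _ _
    rfl

/-- the sites occupied by a partition, as elements of `Fin (m + n)` -/
def xf (l : L m n) (j : Fin m) : Fin (m + n) :=
  ⟨(X l j - 1).toNat, by have := X_bounds l j; omega⟩

theorem xf_spec (l : L m n) (j : Fin m) : ((xf l j : ℕ) : ℤ) + 1 = X l j := by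
  have := X_bounds l j
  show (((X l j - 1).toNat : ℕ) : ℤ) + 1 = X l j
  omega

theorem xf_inj (l : L m n) : Function.Injective (xf l) := by
  intro i j h
  have h1 : X l i = X l j := by rw [← xf_spec, ← xf_spec, h]
  exact (X_strictAnti l).injective h1

theorem psi_eq (s : Fin m → Fin (m + n)) (l : L m n) :
    psi (m + n + 1) (fun i => (s i : ℕ) + 1) (X l) =
      (Matrix.of fun i j => Phi (m + n) (s i) (xf l j)).det := by
  unfold psi
  congr 1
  ext i j
  show phi (m + n + 1) ((s i : ℕ) + 1) (X l j) =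
    phi (m + n + 1) ((s i : ℕ) + 1) (((xf l j : ℕ) : ℤ) + 1)
  rw [xf_spec]

theorem A_symm : (A m n)ᵀ = A m n := by
  classical
  ext a b
  show (SimpleGraph.hasse (L m n)).adjMatrix ℝ b a = (SimpleGraph.hasse (L m n)).adjMatrix ℝ a b
  rw [SimpleGraph.adjMatrix_apply, SimpleGraph.adjMatrix_apply]
  by_cases h : (SimpleGraph.hasse (L m n)).Adj a b
  · rw [if_pos h.symm, if_pos h]
  · rw [if_neg (fun h' => h h'.symm), if_neg h]

theorem xf_ne {l l' : L m n} (h : l ≠ l') : ∃ i, ∀ j, xf l i ≠ xf l' j := by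
  classical
  by_contra hcon
  push Not at hcon
  -- the images coincide
  choose g hg using hcon
  have hginj : Function.Injective g := by
    intro a b hab
    apply xf_inj l
    rw [hg, hg, hab]
  have hgmono : StrictMono g := by
    intro a b hab
    have h1 := X_strictAnti l hab
    have h2 : X l' (g b) < X l' (g a) := by
      rw [← xf_spec, ← xf_spec, ← hg, ← hg, xf_spec, xf_spec]
      exact h1
    exact (X_strictAnti l').lt_iff_gt.mp h2
  have hgid : g = id := by
    have hsurj : Function.Surjective g := Finite.injective_iff_surjective.mp hginj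
    let e : Fin m ≃o Fin m := StrictMono.orderIsoOfSurjective g hgmono hsurj
    have he : e = OrderIso.refl _ := Subsingleton.elim _ _
    funext a
    have : e a = a := by rw [he]; rfl
    exact this
  apply h
  apply X_inj
  funext a
  rw [← xf_spec, ← xf_spec, hg a, hgid]
  rfl

theorem delta_det (l l' : L m n) :
    (Matrix.of fun i j => if xf l i = xf l' j then (1 : ℝ) else 0).det =
      if l = l' then 1 else 0 := by
  split_ifs with h
  · subst h
    have : (Matrix.of fun i j => if xf l i = xf l j then (1 : ℝ) else 0) = 1 := by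
      ext i j
      rw [Matrix.one_apply]
      show (if xf l i = xf l j then (1 : ℝ) else 0) = _
      by_cases hij : i = j
      · subst hij
        simp
      · rw [if_neg (fun h => hij (xf_inj l h)), if_neg hij]
    rw [this, Matrix.det_one]
  · obtain ⟨i, hi⟩ := xf_ne h
    apply Matrix.det_eq_zero_of_row_eq_zero i
    intro j
    exact if_neg (hi j)

/-- If no `m` distinct one-particle levels sum to zero, then `A(m,n)` is nonsingular. -/
theorem nonsing (h : ∀ s : Fin m → Fin (m + n), Function.Injective s →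
    ∑ i, lam (m + n + 1) ((s i : ℕ) + 1) ≠ 0) : (A m n).det ≠ 0 := by
  classical
  intro hdet
  obtain ⟨v, hv0, hv⟩ := Matrix.exists_mulVec_eq_zero_iff.mpr hdet
  apply hv0
  obtain ⟨R, hR1, hR2⟩ := Phi_inv (m + n)
  -- orthogonality to all Slater determinants
  have h1 : ∀ s : Fin m → Fin (m + n),
      ∑ μ : L m n, v μ * (Matrix.of fun i j => Phi (m + n) (s i) (xf μ j)).det = 0 := by
    intro s
    by_cases hs : Function.Injective s
    · have e1 := A_psi (m := m) (n := n) (fun i => (s i : ℕ) + 1)
      have e2 : v ⬝ᵥ (A m n *ᵥ fun μ => psi (m + n + 1) (fun i => (s i : ℕ) + 1) (X μ)) = 0 := by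
        rw [Matrix.dotProduct_mulVec, ← Matrix.mulVec_transpose, A_symm, hv, zero_dotProduct]
      rw [e1, dotProduct_smul, smul_eq_mul] at e2
      have e3 := (mul_eq_zero.mp e2).resolve_left (h s hs)
      unfold dotProduct at e3
      rw [← e3]
      apply sum_congr rfl
      intro μ _
      exact congrArg (v μ * ·) (psi_eq s μ).symm
    · apply sum_eq_zero
      intro μ _
      have hs' : ∃ i j, s i = s j ∧ i ≠ j := by
        by_contra hcon
        push Not at hcon
        exact hs (fun i j hij => hcon i j hij)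
      obtain ⟨i, j, hij, hne⟩ := hs'
      rw [Matrix.det_zero_of_row_eq hne (by
        funext k
        show Phi (m + n) (s i) (xf μ k) = Phi (m + n) (s j) (xf μ k)
        rw [hij]), mul_zero]
  funext l
  -- apply the inverse in every row
  have h2 : ∑ s : Fin m → Fin (m + n), (∏ i, R (xf l i) (s i)) *
      ∑ μ : L m n, v μ * (Matrix.of fun i j => Phi (m + n) (s i) (xf μ j)).det = 0 := by
    apply sum_eq_zero
    intro s _
    rw [h1 s, mul_zero]
  have h3 : ∑ s : Fin m → Fin (m + n), (∏ i, R (xf l i) (s i)) *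
      ∑ μ : L m n, v μ * (Matrix.of fun i j => Phi (m + n) (s i) (xf μ j)).det =
      ∑ μ : L m n, v μ * (if l = μ then 1 else 0) := by
    simp_rw [mul_sum]
    rw [sum_comm]
    apply sum_congr rfl
    intro μ _
    rw [← delta_det l μ]
    have h4 := det_sum (m := m) (N := m + n) (fun j t => Phi (m + n) t (xf μ j))
      (fun t i => R (xf l i) t)
    have h5 : ∀ s : Fin m → Fin (m + n), (∏ i, R (xf l i) (s i)) *
        (v μ * (Matrix.of fun i j => Phi (m + n) (s i) (xf μ j)).det) =
        v μ * ((∏ j, R (xf l j) (s j)) *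
          (Matrix.of fun i j => Phi (m + n) (s j) (xf μ i)).det) := by
      intro s
      have h6 : (Matrix.of fun i j => Phi (m + n) (s j) (xf μ i)).det =
          (Matrix.of fun i j => Phi (m + n) (s i) (xf μ j)).det := by
        rw [← Matrix.det_transpose]
        rfl
      rw [h6]
      ring
    rw [sum_congr rfl (fun s _ => h5 s), ← mul_sum, h4]
    congr 1
    rw [← Matrix.det_transpose]
    congr 1
    ext i j
    show ∑ x, Phi (m + n) x (xf μ j) * R (xf l i) x = if xf l i = xf μ j then (1 : ℝ) else 0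
    have h7 := congrFun (congrFun hR2 (xf l i)) (xf μ j)
    rw [Matrix.mul_apply, Matrix.one_apply] at h7
    rw [← h7]
    apply sum_congr rfl
    intro x _
    ring
  rw [h2] at h3
  simp only [mul_ite, mul_one, mul_zero, Finset.sum_ite_eq, mem_univ, if_true] at h3
  exact h3.symm

/-- If some `m` distinct one-particle levels sum to zero, then `A(m,n)` is singular. -/
theorem sing (s : Fin m → Fin (m + n)) (hs : Function.Injective s)
    (h : ∑ i, lam (m + n + 1) ((s i : ℕ) + 1) = 0) : (A m n).det = 0 := by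
  classical
  by_contra hdet
  obtain ⟨R, hR1, hR2⟩ := Phi_inv (m + n)
  have e1 := A_psi (m := m) (n := n) (fun i => (s i : ℕ) + 1)
  rw [h, zero_smul] at e1
  have e2 := Matrix.eq_zero_of_mulVec_eq_zero hdet e1
  have e3 : ∀ l : L m n, (Matrix.of fun i j => Phi (m + n) (s i) (xf l j)).det = 0 := by
    intro l
    rw [← psi_eq]
    exact congrFun e2 l
  have e4 : ∀ y : Fin m → Fin (m + n),
      (Matrix.of fun i j => Phi (m + n) (s i) (y j)).det = 0 := by
    intro y
    by_cases hy : Function.Injective y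
    · -- sort `y`
      let σ := Tuple.sort (fun i => -((y i : ℕ) : ℤ))
      have hmono : Monotone ((fun i => -((y i : ℕ) : ℤ)) ∘ σ) := Tuple.monotone_sort _
      have hanti : StrictAnti (fun i => ((y (σ i) : ℕ) : ℤ) + 1) := by
        intro a b hab
        have h1 : -((y (σ a) : ℕ) : ℤ) ≤ -((y (σ b) : ℕ) : ℤ) := hmono hab.le
        have h2 : (y (σ a) : ℕ) ≠ (y (σ b) : ℕ) := by
          intro h3
          have := σ.injective (hy (Fin.ext h3))
          exact hab.ne this
        show ((y (σ b) : ℕ) : ℤ) + 1 < ((y (σ a) : ℕ) : ℤ) + 1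
        omega
      obtain ⟨l, hl⟩ := exists_X (n := n) hanti (by
        intro i
        have := (y (σ i)).2
        show 1 ≤ ((y (σ i) : ℕ) : ℤ) + 1 ∧ ((y (σ i) : ℕ) : ℤ) + 1 ≤ m + n
        omega)
      have h4 : ∀ j, xf l j = y (σ j) := by
        intro j
        have h5 := xf_spec l j
        rw [hl] at h5
        have h6 : ((xf l j : ℕ) : ℤ) + 1 = ((y (σ j) : ℕ) : ℤ) + 1 := h5
        apply Fin.ext
        omega
      have h7 := e3 l
      have h8 : (Matrix.of fun i j => Phi (m + n) (s i) (xf l j)) =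
          (Matrix.of fun i j => Phi (m + n) (s i) (y j)).submatrix id σ := by
        ext i j
        show Phi (m + n) (s i) (xf l j) = Phi (m + n) (s i) (y (σ j))
        rw [h4]
      rw [h8, Matrix.det_permute'] at h7
      rcases mul_eq_zero.mp h7 with h9 | h9
      · exfalso
        have : ((Equiv.Perm.sign σ : ℤˣ) : ℤ) ≠ 0 := Units.ne_zero _
        exact this (by exact_mod_cast h9)
      · exact h9
    · have hy' : ∃ i j, y i = y j ∧ i ≠ j := by
        by_contra hcon
        push Not at hcon
        exact hy (fun i j hij => hcon i j hij)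
      obtain ⟨i, j, hij, hne⟩ := hy'
      apply Matrix.det_zero_of_column_eq hne
      intro k
      show Phi (m + n) (s k) (y i) = Phi (m + n) (s k) (y j)
      rw [hij]
  have h4 := det_sum (m := m) (N := m + n) (fun i x => Phi (m + n) (s i) x)
    (fun x j => R x (s j))
  rw [sum_eq_zero (fun y _ => by rw [e4 y, mul_zero])] at h4
  have h5 : (Matrix.of fun i j => ∑ x, Phi (m + n) (s i) x * R x (s j)) = 1 := by
    ext i j
    show ∑ x, Phi (m + n) (s i) x * R x (s j) = _
    have h7 := congrFun (congrFun hR1 (s i)) (s j)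
    rw [Matrix.mul_apply] at h7
    rw [h7, Matrix.one_apply, Matrix.one_apply]
    by_cases hij : i = j
    · subst hij
      simp
    · rw [if_neg hij, if_neg (fun h => hij (hs h))]
  rw [h5, Matrix.det_one] at h4
  exact zero_ne_one h4

end Pool.Agent.H11.LM
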