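import Mathlib

/-!
Vanishing sums of roots of unity of odd order `M` with integer coefficients:
if every prime factor of `M` is at least `p`, a nontrivial relation of even `ℓ¹` norm has norm at
least `2 * p`.
-/

open Finset

namespace Pool.Agent.H11.VanishNT

/-- the value of the relation at `z` -/
noncomputable def V (M : ℕ) (f : ℕ → ℤ) (z : ℂ) : ℂ := ∑ a ∈ range M, (f a : ℂ) * z ^ a

/-- the `ℓ¹` norm -/
def nrm (M : ℕ) (f : ℕ → ℤ) : ℕ := ∑ a ∈ range M, (f a).natAbs

theorem one_all {M : ℕ} (hM : 0 < M) (f : ℕ → ℤ) {z w : ℂ} (hz : IsPrimitiveRoot z M)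
    (hw : IsPrimitiveRoot w M) (h : V M f z = 0) : V M f w = 0 := by
  let F : Polynomial ℤ := ∑ a ∈ range M, Polynomial.C (f a) * Polynomial.X ^ a
  have hF : ∀ x : ℂ, Polynomial.aeval x F = V M f x := by
    intro x
    simp [F, V, map_sum]
  have h1 : minpoly ℤ z ∣ F := by
    apply minpoly.isIntegrallyClosed_dvd (hz.isIntegral hM)
    rw [hF, h]
  rw [← Polynomial.cyclotomic_eq_minpoly hz hM] at h1
  obtain ⟨G, hG⟩ := h1
  rw [← hF, hG, map_mul, Polynomial.cyclotomic_eq_minpoly hw hM, minpoly.aeval, zero_mul]

theorem pow_mod' {q : ℕ} {w : ℂ} (hw : IsPrimitiveRoot w q) (a : ℕ) : w ^ (a % q) = w ^ a := by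
  have h := pow_mod_orderOf w a
  rwa [← hw.eq_orderOf] at h

theorem geom_filter {q : ℕ} (hq : 0 < q) {w : ℂ} (hw : IsPrimitiveRoot w q) (a j : ℕ) :
    ∑ s ∈ range q, (w ^ a * (w ^ j)⁻¹) ^ s = if a % q = j % q then (q : ℂ) else 0 := by
  have hw0 : w ≠ 0 := hw.ne_zero hq.ne'
  split_ifs with h
  · have h1 : w ^ a = w ^ j := by
      rw [← pow_mod' hw a, ← pow_mod' hw j, h]
    rw [h1, mul_inv_cancel₀ (pow_ne_zero _ hw0)]
    simp
  · set x := w ^ a * (w ^ j)⁻¹ with hx
    have hx1 : x ≠ 1 := by
      intro h1
      apply h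
      have h2 : w ^ a = w ^ j := by
        have := mul_inv_eq_one₀ (pow_ne_zero j hw0) |>.mp h1
        exact this
      rw [← pow_mod' hw a, ← pow_mod' hw j] at h2
      exact hw.pow_inj (Nat.mod_lt _ hq) (Nat.mod_lt _ hq) h2
    have hxq : x ^ q = 1 := by
      rw [hx, mul_pow, inv_pow, ← pow_mul, ← pow_mul, mul_comm a q, mul_comm j q, pow_mul, pow_mul,
        hw.pow_eq_one, one_pow, one_pow, inv_one, mul_one]
    have := geom_sum_eq hx1 q
    rw [this, hxq, sub_self, zero_div]

/-- the root-of-unity filter -/
theorem filter_eq {M q : ℕ} (hq : 0 < q) {w : ℂ} (hw : IsPrimitiveRoot w q) (x : ℂ)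
    (f : ℕ → ℤ) (j : ℕ) (hj : j < q) :
    ∑ s ∈ range q, ((w ^ j)⁻¹) ^ s * V M f (x * w ^ s) =
      q * ∑ a ∈ (range M).filter (fun a => a % q = j), (f a : ℂ) * x ^ a := by
  unfold V
  simp only [mul_sum]
  rw [sum_comm, sum_filter]
  apply sum_congr rfl
  intro a _
  have h1 : ∀ s ∈ range q, ((w ^ j)⁻¹) ^ s * ((f a : ℂ) * (x * w ^ s) ^ a) =
      ((f a : ℂ) * x ^ a) * (w ^ a * (w ^ j)⁻¹) ^ s := by
    intro s _
    rw [mul_pow, mul_pow, ← pow_mul, ← pow_mul, mul_comm s a]
    ring
  rw [sum_congr rfl h1, ← mul_sum, geom_filter hq hw, Nat.mod_eq_of_lt hj]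
  split_ifs <;> ring

/-- splitting a sum over `range (q * M')` along residues mod `q` and a second coordinate `c` -/
theorem sum_split {q M' : ℕ} (c : ℕ → ℕ → ℕ)
    (hlt : ∀ j < q, ∀ b < M', c j b < q * M')
    (hmod : ∀ j < q, ∀ b < M', c j b % q = j)
    (hinj : ∀ j < q, ∀ b < M', ∀ b' < M', c j b = c j b' → b = b')
    (hsurj : ∀ a < q * M', ∃ b < M', c (a % q) b = a)
    {β : Type*} [AddCommMonoid β] (g : ℕ → β) :
    (∀ j < q, ∑ a ∈ (range (q * M')).filter (fun a => a % q = j), g a =
      ∑ b ∈ range M', g (c j b)) ∧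
    ∑ a ∈ range (q * M'), g a = ∑ j ∈ range q, ∑ b ∈ range M', g (c j b) := by
  have h1 : ∀ j < q, ∑ a ∈ (range (q * M')).filter (fun a => a % q = j), g a =
      ∑ b ∈ range M', g (c j b) := by
    intro j hj
    symm
    apply sum_bij (fun b _ => c j b)
    · intro b hb
      rw [mem_range] at hb
      rw [mem_filter, mem_range]
      exact ⟨hlt j hj b hb, hmod j hj b hb⟩
    · intro b hb b' hb' h
      rw [mem_range] at hb hb'
      exact hinj j hj b hb b' hb' h
    · intro a ha
      rw [mem_filter, mem_range] at ha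
      obtain ⟨b, hb, hab⟩ := hsurj a ha.1
      refine ⟨b, mem_range.mpr hb, ?_⟩
      rw [← ha.2]
      exact hab
    · intro b _
      rfl
  refine ⟨h1, ?_⟩
  have h2 : ∑ j ∈ range q, ∑ b ∈ range M', g (c j b) =
      ∑ j ∈ range q, ∑ a ∈ (range (q * M')).filter (fun a => a % q = j), g a := by
    apply sum_congr rfl
    intro j hj
    rw [h1 j (mem_range.mp hj)]
  rw [h2]
  symm
  apply sum_fiberwise_of_maps_to
  intro a ha
  rw [mem_range] at ha ⊢
  apply Nat.mod_lt
  rcases Nat.eq_zero_or_pos q with h | h
  · subst h; simp at ha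
  · exact h

/-- parity of a sum of naturals -/
theorem exists_odd_of {ι : Type*} (s : Finset ι) (g : ι → ℕ) (hev : Even (∑ i ∈ s, g i))
    {i : ι} (hi : i ∈ s) (hodd : Odd (g i)) : ∃ j ∈ s, j ≠ i ∧ Odd (g j) := by
  classical
  by_contra hcon
  push Not at hcon
  have h1 : Even (∑ j ∈ s.erase i, g j) := by
    apply Finset.even_sum
    intro j hj
    rw [mem_erase] at hj
    have := hcon j hj.2 hj.1
    rwa [Nat.not_odd_iff_even] at this
  rw [← add_sum_erase s g hi] at hev
  have h2 : Even (g i) := by
    rw [Nat.even_add] at hev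
    exact hev.mpr h1
  exact (Nat.not_even_iff_odd.mpr hodd) h2

/-- the combination lemma: all classes vanish separately -/
theorem combine {q M' p : ℕ} (f : ℕ → ℤ) (c : ℕ → ℕ → ℕ)
    (hsurj : ∀ a < q * M', ∃ b < M', c (a % q) b = a)
    (hn : nrm (q * M') f = ∑ j ∈ range q, nrm M' (fun b => f (c j b)))
    (h : ∀ j < q, (p ≤ nrm M' (fun b => f (c j b)) ∨ ∀ b < M', f (c j b) = 0) ∧
      (Even (nrm M' (fun b => f (c j b))) →
        2 * p ≤ nrm M' (fun b => f (c j b)) ∨ ∀ b < M', f (c j b) = 0)) :
    (p ≤ nrm (q * M') f ∨ ∀ a < q * M', f a = 0) ∧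
      (Even (nrm (q * M') f) → 2 * p ≤ nrm (q * M') f ∨ ∀ a < q * M', f a = 0) := by
  by_cases hz : ∀ j < q, ∀ b < M', f (c j b) = 0
  · have hall : ∀ a < q * M', f a = 0 := by
      intro a ha
      obtain ⟨b, hb, hab⟩ := hsurj a ha
      have hq : 0 < q := by
        rcases Nat.eq_zero_or_pos q with h | h
        · subst h; simp at ha
        · exact h
      rw [← hab]
      exact hz _ (Nat.mod_lt _ hq) b hb
    exact ⟨Or.inr hall, fun _ => Or.inr hall⟩
  · push Not at hz
    obtain ⟨j0, hj0, b0, hb0, hne⟩ := hz
    have hnz : ¬ ∀ b < M', f (c j0 b) = 0 := fun h => hne (h b0 hb0)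
    have hj0' : j0 ∈ range q := mem_range.mpr hj0
    have hle : ∀ j ∈ range q, nrm M' (fun b => f (c j b)) ≤ nrm (q * M') f := by
      intro j hj
      rw [hn]
      exact single_le_sum (f := fun j => nrm M' (fun b => f (c j b))) (fun _ _ => Nat.zero_le _) hj
    have hp1 : p ≤ nrm M' (fun b => f (c j0 b)) := ((h j0 hj0).1).resolve_right hnz
    refine ⟨Or.inl (hp1.trans (hle j0 hj0')), ?_⟩
    intro hev
    left
    rcases Nat.even_or_odd (nrm M' (fun b => f (c j0 b))) with he | ho
    · exact (((h j0 hj0).2 he).resolve_right hnz).trans (hle j0 hj0')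
    · rw [hn] at hev
      obtain ⟨j1, hj1, hne1, ho1⟩ := exists_odd_of (range q)
        (fun j => nrm M' (fun b => f (c j b))) hev hj0' ho
      have hnz1 : ¬ ∀ b < M', f (c j1 b) = 0 := by
        intro hz1
        have : nrm M' (fun b => f (c j1 b)) = 0 := by
          unfold nrm
          apply sum_eq_zero
          intro b hb
          show (f (c j1 b)).natAbs = 0
          rw [hz1 b (mem_range.mp hb)]
          rfl
        rw [this] at ho1
        exact absurd ho1 (by decide)
      have hp2 : p ≤ nrm M' (fun b => f (c j1 b)) :=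
        ((h j1 (mem_range.mp hj1)).1).resolve_right hnz1
      have hpair : nrm M' (fun b => f (c j0 b)) + nrm M' (fun b => f (c j1 b)) ≤
          nrm (q * M') f := by
        rw [hn]
        have := sum_le_sum_of_subset (f := fun j => nrm M' (fun b => f (c j b)))
          (s := {j0, j1}) (t := range q) (by
            intro x hx
            rw [mem_insert, mem_singleton] at hx
            rcases hx with rfl | rfl
            · exact hj0'
            · exact hj1)
        rwa [sum_pair hne1.symm] at this
      omega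

/-- Case A: `q ∣ M'`. -/
theorem caseA {q M' : ℕ} (hq : 0 < q) (hM' : 0 < M') (hdvd : q ∣ M') (f : ℕ → ℤ) {z : ℂ}
    (hz : IsPrimitiveRoot z (q * M')) (hV : V (q * M') f z = 0) (j : ℕ) (hj : j < q) :
    V M' (fun b => f (j + q * b)) (z ^ q) = 0 := by
  have hpos : 0 < q * M' := Nat.mul_pos hq hM'
  have hw : IsPrimitiveRoot (z ^ M') q := hz.pow hpos (mul_comm q M')
  have hfil := filter_eq (M := q * M') hq hw z f j hj
  have hzero : ∑ s ∈ range q, (((z ^ M') ^ j)⁻¹) ^ s * V (q * M') f (z * (z ^ M') ^ s) = 0 := by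
    apply sum_eq_zero
    intro s _
    have h1 : z * (z ^ M') ^ s = z ^ (1 + M' * s) := by
      rw [pow_add, pow_one, pow_mul]
    have hco1 : Nat.Coprime (1 + M' * s) M' := by
      rw [Nat.coprime_add_mul_left_left]
      exact Nat.coprime_one_left M'
    have hco : Nat.Coprime (1 + M' * s) (q * M') :=
      Nat.Coprime.mul_right (Nat.Coprime.coprime_dvd_right hdvd hco1) hco1
    have h2 := hz.pow_of_coprime _ hco
    rw [h1, one_all hpos f hz h2 hV, mul_zero]
  rw [hzero] at hfil
  have hq' : (q : ℂ) ≠ 0 := Nat.cast_ne_zero.mpr hq.ne'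
  have hB := (mul_eq_zero.mp hfil.symm).resolve_left hq'
  have hsplit := (sum_split (q := q) (M' := M') (fun j b => j + q * b)
    (by
      intro j hj b hb
      calc j + q * b < q + q * b := by omega
        _ = q * (b + 1) := by ring
        _ ≤ q * M' := Nat.mul_le_mul_left _ hb)
    (by
      intro j hj b _
      show (j + q * b) % q = j
      rw [Nat.add_mul_mod_self_left, Nat.mod_eq_of_lt hj])
    (by
      intro j _ b _ b' _ h
      have h' : j + q * b = j + q * b' := h
      exact Nat.eq_of_mul_eq_mul_left hq (by omega))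
    (by
      intro a ha
      refine ⟨a / q, Nat.div_lt_of_lt_mul ha, ?_⟩
      exact Nat.mod_add_div a q)
    (fun a => (f a : ℂ) * z ^ a)).1 j hj
  rw [hsplit] at hB
  have h3 : ∑ b ∈ range M', (f (j + q * b) : ℂ) * z ^ (j + q * b) =
      z ^ j * V M' (fun b => f (j + q * b)) (z ^ q) := by
    unfold V
    rw [mul_sum]
    apply sum_congr rfl
    intro b _
    rw [pow_add, pow_mul]
    ring
  rw [h3] at hB
  exact (mul_eq_zero.mp hB).resolve_left (pow_ne_zero _ (hz.ne_zero hpos.ne'))

theorem crt_split {q M' : ℕ} (hq : 0 < q) (hM' : 0 < M') (hco : Nat.Coprime q M') :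
    (∀ j < q, ∀ b < M', (Nat.chineseRemainder hco j b : ℕ) < q * M') ∧
    (∀ j < q, ∀ b < M', (Nat.chineseRemainder hco j b : ℕ) % q = j) ∧
    (∀ j < q, ∀ b < M', (Nat.chineseRemainder hco j b : ℕ) % M' = b) ∧
    (∀ j < q, ∀ b < M', ∀ b' < M', (Nat.chineseRemainder hco j b : ℕ) =
      (Nat.chineseRemainder hco j b' : ℕ) → b = b') ∧
    (∀ a < q * M', ∃ b < M', (Nat.chineseRemainder hco (a % q) b : ℕ) = a) := by
  have hm2 : ∀ j < q, ∀ b < M', (Nat.chineseRemainder hco j b : ℕ) % M' = b := by
    intro j _ b hb
    have := (Nat.chineseRemainder hco j b).2.2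
    have h2 : (Nat.chineseRemainder hco j b : ℕ) % M' = b % M' := this
    rwa [Nat.mod_eq_of_lt hb] at h2
  refine ⟨?_, ?_, hm2, ?_, ?_⟩
  · intro j _ b _
    exact Nat.chineseRemainder_lt_mul hco j b hq.ne' hM'.ne'
  · intro j hj b _
    have := (Nat.chineseRemainder hco j b).2.1
    have h2 : (Nat.chineseRemainder hco j b : ℕ) % q = j % q := this
    rwa [Nat.mod_eq_of_lt hj] at h2
  · intro j hj b hb b' hb' h
    rw [← hm2 j hj b hb, ← hm2 j hj b' hb', h]
  · intro a ha
    refine ⟨a % M', Nat.mod_lt _ hM', ?_⟩
    have h1 := (Nat.chineseRemainder hco (a % q) (a % M')).2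
    have h2 : (Nat.chineseRemainder hco (a % q) (a % M') : ℕ) ≡ a [MOD q * M'] := by
      rw [← Nat.modEq_and_modEq_iff_modEq_mul hco]
      exact ⟨h1.1.trans (Nat.mod_modEq a q), h1.2.trans (Nat.mod_modEq a M')⟩
    exact Nat.ModEq.eq_of_lt_of_lt h2 (Nat.chineseRemainder_lt_mul hco _ _ hq.ne' hM'.ne') ha

/-- Case B: `q` prime, coprime to `M'`. -/
theorem caseB {q M' : ℕ} (hq : q.Prime) (hM' : 0 < M') (hco : Nat.Coprime q M') (f : ℕ → ℤ)
    {z : ℂ} (hz : IsPrimitiveRoot z (q * M')) (hV : V (q * M') f z = 0) :
    ∃ y : ℂ, IsPrimitiveRoot y M' ∧ ∀ i < q, ∀ j < q,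
      V M' (fun b => f (Nat.chineseRemainder hco i b)) y =
      V M' (fun b => f (Nat.chineseRemainder hco j b)) y := by
  have hq0 : 0 < q := hq.pos
  have hpos : 0 < q * M' := Nat.mul_pos hq0 hM'
  obtain ⟨c1, c2, c3, c4, c5⟩ := crt_split hq0 hM' hco
  obtain ⟨k, hk1, hk2⟩ := Nat.chineseRemainder hco 0 1
  have hw : IsPrimitiveRoot (z ^ M') q := hz.pow hpos (mul_comm q M')
  have hqk : q ∣ k := (Nat.modEq_zero_iff_dvd).mp hk1
  have hkM : Nat.Coprime k M' := by
    have := hk2.gcd_eq
    rw [Nat.gcd_one_left] at this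
    exact this
  obtain ⟨k', hk'⟩ := hqk
  have hy : IsPrimitiveRoot (z ^ k) M' := by
    rw [hk', pow_mul]
    have h1 : IsPrimitiveRoot (z ^ q) M' := hz.pow hpos rfl
    apply h1.pow_of_coprime
    rw [hk'] at hkM
    exact Nat.Coprime.coprime_mul_left hkM
  refine ⟨z ^ k, hy, ?_⟩
  have hmain : ∀ j < q, (q : ℂ) * V M' (fun b => f (Nat.chineseRemainder hco j b)) (z ^ k) =
      V (q * M') f (z ^ k) := by
    intro j hj
    have hfil := filter_eq (M := q * M') hq0 hw (z ^ k) f j hj
    have hsplit := (sum_split (q := q) (M' := M') (fun j b => (Nat.chineseRemainder hco j b : ℕ))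
      c1 c2 c4 c5 (fun a => (f a : ℂ) * (z ^ k) ^ a)).1 j hj
    rw [hsplit] at hfil
    have h3 : ∑ b ∈ range M', (f (Nat.chineseRemainder hco j b) : ℂ) *
        (z ^ k) ^ (Nat.chineseRemainder hco j b : ℕ) =
        V M' (fun b => f (Nat.chineseRemainder hco j b)) (z ^ k) := by
      unfold V
      apply sum_congr rfl
      intro b hb
      rw [mem_range] at hb
      congr 1
      rw [← pow_mod' hy, c3 j hj b hb]
    rw [h3] at hfil
    rw [← hfil]
    rw [← Nat.succ_pred_eq_of_pos hq0, Finset.sum_range_succ']
    have hrest : ∑ s ∈ range q.pred, (((z ^ M') ^ j)⁻¹) ^ (s + 1) *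
        V (q.pred.succ * M') f (z ^ k * (z ^ M') ^ (s + 1)) = 0 := by
      apply sum_eq_zero
      intro s hs
      rw [mem_range] at hs
      rw [Nat.succ_pred_eq_of_pos hq0]
      have h1 : z ^ k * (z ^ M') ^ (s + 1) = z ^ (k + M' * (s + 1)) := by
        rw [pow_add z k, pow_mul z M' (s + 1)]
      have hs1 : s + 1 < q := by
        have := Nat.succ_pred_eq_of_pos hq0
        omega
      have hcoM : Nat.Coprime (k + M' * (s + 1)) M' := by
        rw [Nat.coprime_add_mul_left_left]
        exact hkM
      have hcoq : Nat.Coprime (k + M' * (s + 1)) q := by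
        rw [Nat.coprime_comm, hq.coprime_iff_not_dvd]
        intro hd
        have h5 : q ∣ M' * (s + 1) := (Nat.dvd_add_right (by rw [hk']; exact dvd_mul_right q k')).mp hd
        have h6 : q ∣ s + 1 := Nat.Coprime.dvd_of_dvd_mul_left hco h5
        exact absurd (Nat.le_of_dvd (Nat.succ_pos s) h6) (by omega)
      have h2 := hz.pow_of_coprime _ (Nat.Coprime.mul_right hcoq hcoM)
      rw [h1, one_all hpos f hz h2 hV, mul_zero]
    rw [hrest, zero_add, pow_zero, pow_zero, one_mul, mul_one, Nat.succ_pred_eq_of_pos hq0]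
  intro i hi j hj
  have hq' : (q : ℂ) ≠ 0 := Nat.cast_ne_zero.mpr hq0.ne'
  exact mul_left_cancel₀ hq' ((hmain i hi).trans (hmain j hj).symm)

theorem V_one {M : ℕ} (h : M = 1) (g : ℕ → ℤ) (y : ℂ) (hV : V M g y = 0) :
    ∀ b < M, g b = 0 := by
  subst h
  intro b hb
  have hb0 : b = 0 := by omega
  rw [hb0]
  unfold V at hV
  simpa using hV

theorem nrm_eq_zero_iff (M : ℕ) (f : ℕ → ℤ) : nrm M f = 0 ↔ ∀ a < M, f a = 0 := by
  unfold nrm
  rw [sum_eq_zero_iff]
  constructor
  · intro h a ha
    exact Int.natAbs_eq_zero.mp (h a (mem_range.mpr ha))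
  · intro h a ha
    rw [h a (mem_range.mp ha)]
    rfl

theorem nrm_sub_le (M : ℕ) (f g : ℕ → ℤ) :
    nrm M (fun b => f b - g b) ≤ nrm M f + nrm M g := by
  unfold nrm
  rw [← sum_add_distrib]
  apply sum_le_sum
  intro a _
  show (f a - g a).natAbs ≤ _
  omega

theorem nrm_sub_parity (M : ℕ) (f g : ℕ → ℤ) :
    nrm M (fun b => f b - g b) % 2 = (nrm M f + nrm M g) % 2 := by
  unfold nrm
  rw [← sum_add_distrib]
  rw [Finset.sum_nat_mod, Finset.sum_nat_mod (s := range M) (n := 2)
    (f := fun i => (f i).natAbs + (g i).natAbs)]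
  congr 1
  apply sum_congr rfl
  intro a _
  show (f a - g a).natAbs % 2 = _
  omega

theorem key : ∀ M : ℕ, 0 < M → ∀ p : ℕ, (∀ r : ℕ, r.Prime → r ∣ M → p ≤ r ∧ Odd r) →
    ∀ (f : ℕ → ℤ) (z : ℂ), IsPrimitiveRoot z M → V M f z = 0 →
    (p ≤ nrm M f ∨ ∀ a < M, f a = 0) ∧
      (Even (nrm M f) → 2 * p ≤ nrm M f ∨ ∀ a < M, f a = 0) := by
  intro M
  induction M using Nat.strong_induction_on with
  | _ M ih =>
  intro hM p hp f z hz hV
  rcases Nat.eq_or_lt_of_le (Nat.succ_le_of_lt hM) with h1 | h1
  · have hM1 : M = 1 := h1.symm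
    subst hM1
    have h0 : f 0 = 0 := by
      unfold V at hV
      simpa using hV
    have hall : ∀ a < 1, f a = 0 := by
      intro a ha
      have : a = 0 := by omega
      rw [this, h0]
    exact ⟨Or.inr hall, fun _ => Or.inr hall⟩
  · have hM1 : M ≠ 1 := by omega
    have hne : M.primeFactors.Nonempty := by
      rw [Nat.nonempty_primeFactors]
      omega
    obtain ⟨q, hqmem, hqmax⟩ := Finset.exists_max_image M.primeFactors id hne
    rw [Nat.mem_primeFactors] at hqmem
    obtain ⟨hqp, hqd, _⟩ := hqmem
    obtain ⟨M', rfl⟩ := hqd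
    have hq0 : 0 < q := hqp.pos
    have hM' : 0 < M' := Nat.pos_of_mul_pos_left hM |> fun h => by
      rcases Nat.eq_zero_or_pos M' with h0 | h0
      · subst h0; simp at hM
      · exact h0
    have hlt : M' < q * M' := by
      have := hqp.two_le
      nlinarith
    have hp' : ∀ r : ℕ, r.Prime → r ∣ M' → p ≤ r ∧ Odd r := by
      intro r hr hd
      exact hp r hr (dvd_mul_of_dvd_right hd q)
    have hpq : p ≤ q ∧ Odd q := hp q hqp (dvd_mul_right q M')
    by_cases hdvd : q ∣ M'
    · -- case A
      have hs := sum_split (q := q) (M' := M') (fun j b => j + q * b)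
        (by
          intro j hj b hb
          calc j + q * b < q + q * b := by omega
            _ = q * (b + 1) := by ring
            _ ≤ q * M' := Nat.mul_le_mul_left _ hb)
        (by
          intro j hj b _
          show (j + q * b) % q = j
          rw [Nat.add_mul_mod_self_left, Nat.mod_eq_of_lt hj])
        (by
          intro j _ b _ b' _ h
          have h' : j + q * b = j + q * b' := h
          exact Nat.eq_of_mul_eq_mul_left hq0 (by omega))
        (by
          intro a ha
          refine ⟨a / q, Nat.div_lt_of_lt_mul ha, ?_⟩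
          exact Nat.mod_add_div a q)
        (fun a => (f a).natAbs)
      apply combine f (fun j b => j + q * b)
      · intro a ha
        refine ⟨a / q, Nat.div_lt_of_lt_mul ha, ?_⟩
        exact Nat.mod_add_div a q
      · exact hs.2
      · intro j hj
        have hVj := caseA hq0 hM' hdvd f hz hV j hj
        exact ih M' hlt hM' p hp' _ _ (hz.pow hM rfl) hVj
    · -- case B
      have hco : Nat.Coprime q M' := (hqp.coprime_iff_not_dvd).mpr hdvd
      obtain ⟨y, hy, hVeq⟩ := caseB hqp hM' hco f hz hV
      obtain ⟨c1, c2, c3, c4, c5⟩ := crt_split hq0 hM' hco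
      have hs := (sum_split (q := q) (M' := M')
        (fun j b => (Nat.chineseRemainder hco j b : ℕ)) c1 c2 c4 c5 (fun a => (f a).natAbs)).2
      have hn : nrm (q * M') f =
          ∑ j ∈ range q, nrm M' (fun b => f (Nat.chineseRemainder hco j b)) := hs
      by_cases hex : ∃ j0 < q, ∀ b < M', f (Nat.chineseRemainder hco j0 b) = 0
      · obtain ⟨j0, hj0, hz0⟩ := hex
        have hV0 : V M' (fun b => f (Nat.chineseRemainder hco j0 b)) y = 0 := by
          unfold V
          apply sum_eq_zero
          intro b hb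
          show ((f (Nat.chineseRemainder hco j0 b) : ℤ) : ℂ) * y ^ b = 0
          rw [hz0 b (mem_range.mp hb)]
          simp
        apply combine f (fun j b => (Nat.chineseRemainder hco j b : ℕ))
        · exact c5
        · exact hn
        · intro j hj
          exact ih M' hlt hM' p hp' _ y hy ((hVeq j hj j0 hj0).trans hV0)
      · push Not at hex
        have hge1 : ∀ j ∈ range q, 1 ≤ nrm M' (fun b => f (Nat.chineseRemainder hco j b)) := by
          intro j hj
          rw [mem_range] at hj
          obtain ⟨b, hb, hne⟩ := hex j hj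
          rcases Nat.eq_zero_or_pos (nrm M' (fun b => f (Nat.chineseRemainder hco j b))) with h | h
          · exact absurd ((nrm_eq_zero_iff M' _).mp h b hb) hne
          · exact h
        have hqle : q ≤ nrm (q * M') f := by
          rw [hn]
          have := Finset.card_nsmul_le_sum (range q)
            (fun j => nrm M' (fun b => f (Nat.chineseRemainder hco j b))) 1 hge1
          simpa using this
        refine ⟨Or.inl (hpq.1.trans hqle), ?_⟩
        intro hev
        left
        by_cases hall2 : ∀ j ∈ range q, 2 ≤ nrm M' (fun b => f (Nat.chineseRemainder hco j b))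
        · have := Finset.card_nsmul_le_sum (range q)
            (fun j => nrm M' (fun b => f (Nat.chineseRemainder hco j b))) 2 hall2
          rw [hn]
          rw [card_range, smul_eq_mul] at this
          have := hpq.1
          omega
        · push Not at hall2
          obtain ⟨i, hi, hi2⟩ := hall2
          have hi1 : nrm M' (fun b => f (Nat.chineseRemainder hco i b)) = 1 := by
            have := hge1 i hi
            omega
          -- some class has even norm
          have hexj : ∃ j ∈ range q, Even (nrm M' (fun b => f (Nat.chineseRemainder hco j b))) := by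
            by_contra hcon
            push Not at hcon
            have hodd : Odd (∑ j ∈ range q,
                nrm M' (fun b => f (Nat.chineseRemainder hco j b))) := by
              rw [Finset.odd_sum_iff_odd_card_odd]
              have : (range q).filter (fun x => Odd (nrm M'
                  (fun b => f (Nat.chineseRemainder hco x b)))) = range q := by
                apply filter_true_of_mem
                intro j hj
                exact Nat.not_even_iff_odd.mp (hcon j hj)
              rw [this, card_range]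
              exact hpq.2
            rw [← hn] at hodd
            exact (Nat.not_even_iff_odd.mpr hodd) hev
          obtain ⟨j, hj, hjev⟩ := hexj
          have hij : i ≠ j := by
            rintro rfl
            rw [hi1] at hjev
            exact absurd hjev (by decide)
          -- the difference
          have hVd : V M' (fun b => f (Nat.chineseRemainder hco i b) -
              f (Nat.chineseRemainder hco j b)) y = 0 := by
            have h5 := hVeq i (mem_range.mp hi) j (mem_range.mp hj)
            have h6 : V M' (fun b => f (Nat.chineseRemainder hco i b) -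
              f (Nat.chineseRemainder hco j b)) y =
                V M' (fun b => f (Nat.chineseRemainder hco i b)) y -
                V M' (fun b => f (Nat.chineseRemainder hco j b)) y := by
              unfold V
              rw [← sum_sub_distrib]
              apply sum_congr rfl
              intro b _
              push_cast
              ring
            rw [h6, h5, sub_self]
          have hih := ih M' hlt hM' p hp' _ y hy hVd
          have hpar := nrm_sub_parity M' (fun b => f (Nat.chineseRemainder hco i b))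
            (fun b => f (Nat.chineseRemainder hco j b))
          have hle := nrm_sub_le M' (fun b => f (Nat.chineseRemainder hco i b))
            (fun b => f (Nat.chineseRemainder hco j b))
          have hnz : ¬ ∀ b < M', f (Nat.chineseRemainder hco i b) -
              f (Nat.chineseRemainder hco j b) = 0 := by
            intro h
            have h7 := (nrm_eq_zero_iff M' (fun b => f (Nat.chineseRemainder hco i b) -
              f (Nat.chineseRemainder hco j b))).mpr h
            obtain ⟨t, ht⟩ := hjev
            rw [h7, hi1] at hpar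
            omega
          have hple := hih.1.resolve_right hnz
          have hjge : p ≤ 1 + nrm M' (fun b => f (Nat.chineseRemainder hco j b)) := by
            rw [hi1] at hle
            exact hple.trans hle
          -- total bound
          have htot : nrm M' (fun b => f (Nat.chineseRemainder hco j b)) + (q - 1) ≤
              nrm (q * M') f := by
            rw [hn, ← add_sum_erase (range q)
              (fun j => nrm M' (fun b => f (Nat.chineseRemainder hco j b))) hj]
            apply Nat.add_le_add_left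
            have := Finset.card_nsmul_le_sum ((range q).erase j)
              (fun j => nrm M' (fun b => f (Nat.chineseRemainder hco j b))) 1
              (fun x hx => hge1 x (mem_of_mem_erase hx))
            rw [card_erase_of_mem hj, card_range] at this
            simpa using this
          -- `M' ≠ 1`
          have hM'1 : M' ≠ 1 := by
            intro h
            exact hnz (V_one h _ y hVd)
          obtain ⟨r, hr, hrd⟩ := Nat.exists_prime_and_dvd hM'1
          have hrM : r ∈ (q * M').primeFactors := by
            rw [Nat.mem_primeFactors]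
            exact ⟨hr, dvd_mul_of_dvd_right hrd q, hM.ne'⟩
          have hrq : r ≤ q := hqmax r hrM
          have hrne : r ≠ q := by
            rintro rfl
            exact hdvd hrd
          have hpr := hp' r hr hrd
          obtain ⟨u, hu⟩ := hpr.2
          obtain ⟨v, hv⟩ := hpq.2
          have := hpr.1
          omega

end Pool.Agent.H11.VanishNT
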