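import Mathlib
import Pool.Agent.H11.VanishNT

/-!
Sums of an odd number of distinct values `cos (π a / M)`, `1 ≤ a < M`, `M` odd.
-/

open Finset

namespace Pool.Agent.H11.VanishNT

/-- the indicator of `S` as an integer -/
def ind (S : Finset ℕ) (a : ℕ) : ℤ := if a ∈ S then 1 else 0

/-- the relation attached to `S` -/
def rel (M : ℕ) (S : Finset ℕ) (a : ℕ) : ℤ := (-1) ^ a * (ind S a - ind S (M - a))

theorem card_even_of_symm {M : ℕ} (hM : Odd M) (S : Finset ℕ) (hS : ∀ a ∈ S, 1 ≤ a ∧ a < M)
    (h : ∀ a ∈ S, M - a ∈ S) : Even S.card := by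
  have h1 : ∑ a ∈ S, (1 : ZMod 2) = 0 := by
    apply Finset.sum_involution (fun a _ => M - a)
    · intro a _
      decide
    · intro a ha _ heq
      obtain ⟨k, hk⟩ := hM
      have := hS a ha
      have h2 : M - a = a := heq
      omega
    · intro a ha
      exact h a ha
    · intro a ha
      have := hS a ha
      show M - (M - a) = a
      omega
  rw [sum_const, nsmul_eq_mul, mul_one] at h1
  exact (ZMod.natCast_eq_zero_iff_even).mp h1

theorem nrm_rel {M : ℕ} (S : Finset ℕ) (hS : ∀ a ∈ S, 1 ≤ a ∧ a < M) :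
    nrm M (rel M S) = 2 * (S.filter (fun a => M - a ∉ S)).card := by
  have h1 : ∀ a, (rel M S a).natAbs =
      (if a ∈ S ∧ M - a ∉ S then 1 else 0) + (if a ∉ S ∧ M - a ∈ S then 1 else 0) := by
    intro a
    unfold rel ind
    rw [Int.natAbs_mul, Int.natAbs_pow]
    by_cases ha : a ∈ S <;> by_cases hb : M - a ∈ S <;> simp [ha, hb]
  unfold nrm
  rw [sum_congr rfl (fun a _ => h1 a), sum_add_distrib, ← card_filter, ← card_filter, two_mul]
  congr 1
  · congr 1
    ext a
    simp only [mem_filter, mem_range]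
    constructor
    · rintro ⟨_, h2, h3⟩
      exact ⟨h2, h3⟩
    · rintro ⟨h2, h3⟩
      exact ⟨(hS a h2).2, h2, h3⟩
  · apply card_bij (fun a _ => M - a)
    · intro a ha
      rw [mem_filter, mem_range] at ha
      have h2 := hS _ ha.2.2
      rw [mem_filter]
      refine ⟨ha.2.2, ?_⟩
      have : M - (M - a) = a := by omega
      rw [this]
      exact ha.2.1
    · intro a ha b hb h
      rw [mem_filter, mem_range] at ha hb
      have h2 := hS _ ha.2.2
      have h3 := hS _ hb.2.2
      omega
    · intro b hb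
      rw [mem_filter] at hb
      have h2 := hS b hb.1
      refine ⟨M - b, ?_, by omega⟩
      rw [mem_filter, mem_range]
      have h3 : M - (M - b) = b := by omega
      rw [h3]
      exact ⟨by omega, hb.2, hb.1⟩

theorem card_U_le {M : ℕ} (S : Finset ℕ) (hS : ∀ a ∈ S, 1 ≤ a ∧ a < M) :
    (S.filter (fun a => M - a ∉ S)).card ≤ M - 1 - S.card := by
  have h1 : (S.filter (fun a => M - a ∉ S)).card ≤ (Finset.Ico 1 M \ S).card := by
    apply card_le_card_of_injOn (fun a => M - a)
    · intro a ha
      rw [Finset.mem_coe, mem_filter] at ha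
      have h2 := hS a ha.1
      rw [Finset.mem_coe, mem_sdiff, mem_Ico]
      refine ⟨?_, ha.2⟩
      show 1 ≤ M - a ∧ M - a < M
      omega
    · intro a ha b hb h
      rw [Finset.mem_coe, mem_filter] at ha hb
      have h2 := hS a ha.1
      have h3 := hS b hb.1
      have h4 : M - a = M - b := h
      omega
  have h2 : (Finset.Ico 1 M \ S).card = M - 1 - S.card := by
    rw [card_sdiff_of_subset, Nat.card_Ico]
    intro a ha
    rw [mem_Ico]
    exact hS a ha
  omega

/-- the primitive root `-exp(iπ/M)` -/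
noncomputable def th (M : ℕ) : ℂ := -Complex.exp (Real.pi * Complex.I / M)

theorem th_pow (M : ℕ) (a : ℕ) :
    th M ^ a = (-1) ^ a * Complex.exp (a * (Real.pi * Complex.I / M)) := by
  unfold th
  rw [neg_pow, ← Complex.exp_nat_mul]

theorem th_prim {M : ℕ} (hM : Odd M) : IsPrimitiveRoot (th M) M := by
  obtain ⟨k, hk⟩ := hM
  have hM0 : M ≠ 0 := by omega
  have hco : (k + 1).Coprime M := by
    rw [hk]
    have : 2 * k + 1 = k + (k + 1) * 1 := by ring
    rw [this, Nat.coprime_add_mul_left_right]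
    simp
  have h := Complex.isPrimitiveRoot_exp_of_coprime (k + 1) M hM0 hco
  have hc : (M : ℂ) ≠ 0 := Nat.cast_ne_zero.mpr hM0
  have heq : th M = Complex.exp (2 * Real.pi * Complex.I * ((k + 1 : ℕ) / M)) := by
    unfold th
    have h1 : 2 * (Real.pi : ℂ) * Complex.I * ((k + 1 : ℕ) / M) =
        Real.pi * Complex.I + Real.pi * Complex.I / M := by
      have h2 : ((k + 1 : ℕ) : ℂ) = ((M : ℂ) + 1) / 2 := by
        rw [hk]
        push_cast
        ring
      rw [h2]
      field_simp
    rw [h1, Complex.exp_add, Complex.exp_pi_mul_I]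
    ring
  rw [heq]
  exact h

theorem V_rel {M : ℕ} (hM : Odd M) (S : Finset ℕ) (hS : ∀ a ∈ S, 1 ≤ a ∧ a < M) :
    V M (rel M S) (th M) = ((∑ a ∈ S, 2 * Real.cos (Real.pi * a / M) : ℝ) : ℂ) := by
  have hM0 : M ≠ 0 := by
    obtain ⟨k, hk⟩ := hM
    omega
  have hc : (M : ℂ) ≠ 0 := Nat.cast_ne_zero.mpr hM0
  have h1 : V M (rel M S) (th M) =
      ∑ a ∈ range M, ((ind S a : ℂ) * Complex.exp (a * (Real.pi * Complex.I / M)) -
        (ind S (M - a) : ℂ) * Complex.exp (a * (Real.pi * Complex.I / M))) := by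
    unfold V rel
    apply sum_congr rfl
    intro a _
    rw [th_pow]
    push_cast
    have h2 : ((-1 : ℂ) ^ a) * (-1) ^ a = 1 := by
      rw [← mul_pow]
      norm_num
    linear_combination ((ind S a : ℂ) - ind S (M - a)) *
      Complex.exp (a * (Real.pi * Complex.I / M)) * h2
  rw [h1, sum_sub_distrib]
  have h2 : ∑ a ∈ range M, (ind S a : ℂ) * Complex.exp (a * (Real.pi * Complex.I / M)) =
      ∑ a ∈ S, Complex.exp (a * (Real.pi * Complex.I / M)) := by
    have h3 : ∀ a ∈ range M, (ind S a : ℂ) * Complex.exp (a * (Real.pi * Complex.I / M)) =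
        if a ∈ S then Complex.exp (a * (Real.pi * Complex.I / M)) else 0 := by
      intro a _
      unfold ind
      split_ifs <;> simp
    rw [sum_congr rfl h3, ← sum_filter]
    apply sum_congr _ (fun _ _ => rfl)
    ext a
    simp only [mem_filter, mem_range]
    exact ⟨fun h => h.2, fun h => ⟨(hS a h).2, h⟩⟩
  have h4 : ∑ a ∈ range M, (ind S (M - a) : ℂ) * Complex.exp (a * (Real.pi * Complex.I / M)) =
      ∑ b ∈ S, Complex.exp ((M - b : ℕ) * (Real.pi * Complex.I / M)) := by
    have h3 : ∀ a ∈ range M, (ind S (M - a) : ℂ) * Complex.exp (a * (Real.pi * Complex.I / M)) =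
        if M - a ∈ S then Complex.exp (a * (Real.pi * Complex.I / M)) else 0 := by
      intro a _
      unfold ind
      split_ifs <;> simp
    rw [sum_congr rfl h3, ← sum_filter]
    apply sum_bij (fun a _ => M - a)
    · intro a ha
      rw [mem_filter] at ha
      exact ha.2
    · intro a ha b hb h
      rw [mem_filter, mem_range] at ha hb
      omega
    · intro b hb
      have := hS b hb
      refine ⟨M - b, ?_, by omega⟩
      rw [mem_filter, mem_range]
      have h5 : M - (M - b) = b := by omega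
      rw [h5]
      exact ⟨by omega, hb⟩
    · intro a ha
      rw [mem_filter, mem_range] at ha
      have h5 : M - (M - a) = a := by omega
      rw [h5]
  rw [h2, h4, ← sum_sub_distrib]
  push_cast
  apply sum_congr rfl
  intro a ha
  have hab := hS a ha
  have h6 : ((M - a : ℕ) : ℂ) * (Real.pi * Complex.I / M) =
      Real.pi * Complex.I + -(a * (Real.pi * Complex.I / M)) := by
    rw [Nat.cast_sub hab.2.le]
    field_simp
    ring
  rw [h6, Complex.exp_add, Complex.exp_pi_mul_I, Complex.two_cos]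
  have h7 : (Real.pi : ℂ) * a / M * Complex.I = a * (Real.pi * Complex.I / M) := by ring
  have h8 : -((Real.pi : ℂ) * a / M) * Complex.I = -(a * (Real.pi * Complex.I / M)) := by ring
  rw [h7, h8]
  ring

/-- **No odd vanishing cosine sum.** -/
theorem cos_sum_ne {M : ℕ} (hM : Odd M) (hM1 : 1 < M) (S : Finset ℕ)
    (hS : ∀ a ∈ S, 1 ≤ a ∧ a < M) (hodd : Odd S.card)
    (hlt : S.card < M.minFac ∨ M - 1 - S.card < M.minFac) :
    ∑ a ∈ S, 2 * Real.cos (Real.pi * a / M) ≠ 0 := by
  intro h0
  have hV : V M (rel M S) (th M) = 0 := by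
    rw [V_rel hM S hS, h0]
    simp
  have hpr : ∀ r : ℕ, r.Prime → r ∣ M → M.minFac ≤ r ∧ Odd r := by
    intro r hr hd
    exact ⟨Nat.minFac_le_of_dvd hr.two_le hd, Odd.of_dvd_nat hM hd⟩
  have hk := (key M (by omega) M.minFac hpr (rel M S) (th M) (th_prim hM) hV).2
  rw [nrm_rel S hS] at hk
  have hk2 := hk (even_two_mul _)
  have hU1 : (S.filter (fun a => M - a ∉ S)).card ≤ S.card := card_filter_le _ _
  have hU2 := card_U_le S hS
  have hzero : ∀ a < M, rel M S a = 0 := by
    rcases hk2 with h | h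
    · exfalso
      rcases hlt with h2 | h2 <;> omega
    · exact h
  have hsymm : ∀ a ∈ S, M - a ∈ S := by
    intro a ha
    by_contra hcon
    have h1 := hzero a (hS a ha).2
    unfold rel ind at h1
    rw [if_pos ha, if_neg hcon] at h1
    have h2 : ((-1 : ℤ)) ^ a ≠ 0 := pow_ne_zero _ (by norm_num)
    apply h2
    linarith
  exact (Nat.not_even_iff_odd.mpr hodd) (card_even_of_symm hM S hS hsymm)

end Pool.Agent.H11.VanishNT
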