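import Mathlib
import Pool.Agent.H11.VanishCos
import Pool.Agent.H11.LMSpectral

/-!
Existence of vanishing sums of `m` distinct one-particle levels.
-/

open Finset

namespace Pool.Agent.H11.LM

theorem lam_refl {M a : ℕ} (ha : a ≤ M) (hM : 0 < M) : lam M (M - a) = -lam M a := by
  unfold lam
  have hc : (M : ℝ) ≠ 0 := Nat.cast_ne_zero.mpr hM.ne'
  have h1 : Real.pi * ((M - a : ℕ) : ℝ) / M = Real.pi - Real.pi * a / M := by
    rw [Nat.cast_sub ha]
    field_simp
  rw [h1, Real.cos_pi_sub]
  ring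

theorem symm_sum {M : ℕ} (S : Finset ℕ) (hS : ∀ a ∈ S, 1 ≤ a ∧ a < M)
    (hsym : ∀ a ∈ S, M - a ∈ S) : ∑ a ∈ S, lam M a = 0 := by
  apply Finset.sum_involution (fun a _ => M - a)
  · intro a ha
    have := hS a ha
    show lam M a + lam M (M - a) = 0
    rw [lam_refl this.2.le (by omega)]
    ring
  · intro a ha hne heq
    have := hS a ha
    have h2 : M - a = a := heq
    have h3 := lam_refl this.2.le (by omega)
    rw [h2] at h3
    apply hne
    linarith
  · intro a ha
    exact hsym a ha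
  · intro a ha
    have := hS a ha
    show M - (M - a) = a
    omega

theorem to_fin {m n : ℕ} (S : Finset ℕ) (hS : ∀ a ∈ S, 1 ≤ a ∧ a < m + n + 1)
    (hcard : S.card = m) (hsum : ∑ a ∈ S, lam (m + n + 1) a = 0) :
    ∃ s : Fin m → Fin (m + n), Function.Injective s ∧
      ∑ i, lam (m + n + 1) ((s i : ℕ) + 1) = 0 := by
  let e : S ≃ Fin m := Finset.equivFinOfCardEq hcard
  have hb : ∀ i : Fin m, 1 ≤ ((e.symm i : S) : ℕ) ∧ ((e.symm i : S) : ℕ) < m + n + 1 :=
    fun i => hS _ (e.symm i).2
  refine ⟨fun i => ⟨((e.symm i : S) : ℕ) - 1, by have := hb i; omega⟩, ?_, ?_⟩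
  · intro i j hij
    have h1 : ((e.symm i : S) : ℕ) - 1 = ((e.symm j : S) : ℕ) - 1 := congrArg Fin.val hij
    have h2 := hb i
    have h3 := hb j
    have h4 : ((e.symm i : S) : ℕ) = ((e.symm j : S) : ℕ) := by omega
    exact e.symm.injective (Subtype.ext h4)
  · have h1 : ∀ i : Fin m, lam (m + n + 1) ((((e.symm i : S) : ℕ) - 1) + 1) =
        lam (m + n + 1) ((e.symm i : S) : ℕ) := by
      intro i
      have := hb i
      congr 1
      omega
    show ∑ i : Fin m, lam (m + n + 1) ((((e.symm i : S) : ℕ) - 1) + 1) = 0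
    rw [sum_congr rfl (fun i _ => h1 i), Equiv.sum_comp e.symm (fun x : S =>
      lam (m + n + 1) (x : ℕ)), Finset.sum_coe_sort S (fun a => lam (m + n + 1) a)]
    exact hsum

theorem exists_even_m {m n : ℕ} (hm : Even m) :
    ∃ S : Finset ℕ, (∀ a ∈ S, 1 ≤ a ∧ a < m + n + 1) ∧ S.card = m ∧
      ∑ a ∈ S, lam (m + n + 1) a = 0 := by
  obtain ⟨k, hk⟩ := hm
  refine ⟨Icc 1 k ∪ Ico (m + n + 1 - k) (m + n + 1), ?_, ?_, ?_⟩
  · intro a ha
    rw [mem_union, mem_Icc, mem_Ico] at ha
    omega
  · rw [card_union_of_disjoint, Nat.card_Icc, Nat.card_Ico]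
    · omega
    · rw [Finset.disjoint_left]
      intro a ha hb
      rw [mem_Icc] at ha
      rw [mem_Ico] at hb
      omega
  · apply symm_sum
    · intro a ha
      rw [mem_union, mem_Icc, mem_Ico] at ha
      omega
    · intro a ha
      rw [mem_union, mem_Icc, mem_Ico] at ha ⊢
      omega

theorem exists_even_n {m n : ℕ} (hn : Even n) :
    ∃ S : Finset ℕ, (∀ a ∈ S, 1 ≤ a ∧ a < m + n + 1) ∧ S.card = m ∧
      ∑ a ∈ S, lam (m + n + 1) a = 0 := by
  obtain ⟨k, hk⟩ := hn
  refine ⟨Ico (k + 1) (m + n + 1 - k), ?_, ?_, ?_⟩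
  · intro a ha
    rw [mem_Ico] at ha
    omega
  · rw [Nat.card_Ico]
    omega
  · apply symm_sum
    · intro a ha
      rw [mem_Ico] at ha
      omega
    · intro a ha
      rw [mem_Ico] at ha ⊢
      omega

theorem lam_eq_re (M a : ℕ) : lam M a =
    2 * (Complex.exp ((Real.pi * a / M : ℝ) * Complex.I)).re := by
  unfold lam
  rw [Complex.exp_ofReal_mul_I_re]

/-- the sum over a coset -/
theorem coset_sum {p M' : ℕ} (hp : 1 < p) (hM' : 0 < M') :
    ∑ j ∈ range p, lam (p * M') (2 * (1 + j * M')) = 0 := by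
  have hpc : (p : ℂ) ≠ 0 := Nat.cast_ne_zero.mpr (by omega)
  have hMc : (M' : ℂ) ≠ 0 := Nat.cast_ne_zero.mpr (by omega)
  have h1 : ∀ j ∈ range p, lam (p * M') (2 * (1 + j * M')) =
      2 * (Complex.exp (2 * Real.pi * Complex.I / (p * M')) *
        (Complex.exp (2 * Real.pi * Complex.I / p)) ^ j).re := by
    intro j _
    rw [lam_eq_re, ← Complex.exp_nat_mul, ← Complex.exp_add]
    congr 3
    push_cast
    field_simp
  rw [sum_congr rfl h1, ← mul_sum, ← Complex.re_sum, ← mul_sum,
    (Complex.isPrimitiveRoot_exp p (by omega)).geom_sum_eq_zero hp]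
  simp

theorem lam_double {M b : ℕ} (hM : 0 < M) (hb : b < M) :
    lam M (if 2 * b < M then 2 * b else 2 * M - 2 * b) = lam M (2 * b) := by
  split_ifs with h
  · rfl
  · unfold lam
    have hc : (M : ℝ) ≠ 0 := Nat.cast_ne_zero.mpr hM.ne'
    have h1 : Real.pi * ((2 * M - 2 * b : ℕ) : ℝ) / M =
        2 * Real.pi - Real.pi * ((2 * b : ℕ) : ℝ) / M := by
      rw [Nat.cast_sub (by omega)]
      push_cast
      field_simp
    rw [h1, Real.cos_two_pi_sub]

theorem exists_odd {m n : ℕ} (hm : Odd m) (hn : Odd n)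
    (hle : (m + n + 1).minFac ≤ min m n) :
    ∃ S : Finset ℕ, (∀ a ∈ S, 1 ≤ a ∧ a < m + n + 1) ∧ S.card = m ∧
      ∑ a ∈ S, lam (m + n + 1) a = 0 := by
  set M := m + n + 1 with hMdef
  set p := M.minFac with hpdef
  have hpm : p ≤ m := hle.trans (min_le_left _ _)
  have hpn : p ≤ n := hle.trans (min_le_right _ _)
  have hMpos : 0 < M := by omega
  have hM1 : M ≠ 1 := by
    obtain ⟨k, hk⟩ := hm
    omega
  have hpp : p.Prime := Nat.minFac_prime hM1
  have hModd : Odd M := by
    obtain ⟨k, hk⟩ := hm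
    obtain ⟨l, hl⟩ := hn
    exact ⟨k + l + 1, by omega⟩
  have hpodd : Odd p := Odd.of_dvd_nat hModd (Nat.minFac_dvd M)
  obtain ⟨M', hM'⟩ := Nat.minFac_dvd M
  rw [← hpdef] at hM'
  have hM'odd : Odd M' := Odd.of_dvd_nat hModd ⟨p, by rw [hM']; ring⟩
  have hM'1 : M' ≠ 1 := by
    intro h
    rw [h, mul_one] at hM'
    omega
  have hM'3 : 3 ≤ M' := by
    obtain ⟨k, hk⟩ := hM'odd
    omega
  -- the odd part of the relation
  let b : ℕ → ℕ := fun j => 1 + j * M'
  let a : ℕ → ℕ := fun j => if 2 * b j < M then 2 * b j else 2 * M - 2 * b j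
  have hb : ∀ j < p, b j < M := by
    intro j hj
    show 1 + j * M' < M
    have : (j + 1) * M' ≤ p * M' := Nat.mul_le_mul_right _ hj
    rw [hM']
    nlinarith
  have ha : ∀ j < p, 1 ≤ a j ∧ a j < M ∧ Even (a j) := by
    intro j hj
    have h1 := hb j hj
    have h2 : 1 ≤ b j := Nat.le_add_right 1 _
    obtain ⟨k, hk⟩ := hModd
    show 1 ≤ (if 2 * b j < M then 2 * b j else 2 * M - 2 * b j) ∧
      (if 2 * b j < M then 2 * b j else 2 * M - 2 * b j) < M ∧
      Even (if 2 * b j < M then 2 * b j else 2 * M - 2 * b j)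
    split_ifs with h
    · exact ⟨by omega, h, even_two_mul _⟩
    · refine ⟨by omega, by omega, ⟨M - b j, by omega⟩⟩
  have hinj : ∀ j < p, ∀ k < p, a j = a k → j = k := by
    intro j hj k hk h
    have h1 := hb j hj
    have h2 := hb k hk
    have hkey : b j = b k ∨ b j + b k = M := by
      have h3 : (if 2 * b j < M then 2 * b j else 2 * M - 2 * b j) =
        (if 2 * b k < M then 2 * b k else 2 * M - 2 * b k) := h
      split_ifs at h3 <;> omega
    rcases hkey with h3 | h3
    · have h4 : 1 + j * M' = 1 + k * M' := h3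
      exact Nat.eq_of_mul_eq_mul_right (by omega : 0 < M') (by omega)
    · exfalso
      have h4 : 1 + j * M' + (1 + k * M') = p * M' := by rw [← hM']; exact h3
      have h5 : M' ∣ 2 := by
        have h6 : M' ∣ (j + k) * M' + 2 := ⟨p, by nlinarith⟩
        exact (Nat.dvd_add_right (dvd_mul_left M' (j + k))).mp h6
      have := Nat.le_of_dvd (by norm_num) h5
      omega
  let S0 : Finset ℕ := (range p).image a
  have hS0mem : ∀ x ∈ S0, 1 ≤ x ∧ x < M ∧ Even x := by
    intro x hx
    obtain ⟨j, hj, rfl⟩ := mem_image.mp hx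
    exact ha j (mem_range.mp hj)
  have hS0card : S0.card = p := by
    show ((range p).image a).card = p
    rw [card_image_of_injOn, card_range]
    intro j hj k hk h
    rw [Finset.mem_coe, mem_range] at hj hk
    exact hinj j hj k hk h
  have hS0sum : ∑ x ∈ S0, lam M x = 0 := by
    show ∑ x ∈ (range p).image a, lam M x = 0
    rw [sum_image (by
      intro j hj k hk h
      rw [Finset.mem_coe, mem_range] at hj hk
      exact hinj j hj k hk h)]
    have h1 : ∀ j ∈ range p, lam M (a j) = lam (p * M') (2 * (1 + j * M')) := by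
      intro j hj
      rw [mem_range] at hj
      rw [← hM']
      exact lam_double hMpos (hb j hj)
    rw [sum_congr rfl h1]
    exact coset_sum hpp.one_lt (by omega)
  -- the free pairs
  obtain ⟨hh, hhM⟩ : ∃ h, M = 2 * h + 1 := hModd
  let Rlo : Finset ℕ := (Icc 1 hh).filter (fun x => x ∉ S0 ∧ M - x ∉ S0)
  have hRcard : hh - p ≤ Rlo.card := by
    have h1 : ((Icc 1 hh).filter (fun x => ¬ (x ∉ S0 ∧ M - x ∉ S0))).card ≤ S0.card := by
      apply card_le_card_of_injOn (fun x => if x ∈ S0 then x else M - x)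
      · intro x hx
        rw [Finset.mem_coe, mem_filter] at hx
        rw [Finset.mem_coe]
        show (if x ∈ S0 then x else M - x) ∈ S0
        split_ifs with h
        · exact h
        · by_contra hcon
          exact hx.2 ⟨h, hcon⟩
      · intro x hx y hy hxy
        rw [Finset.mem_coe, mem_filter, mem_Icc] at hx hy
        have h2 : (if x ∈ S0 then x else M - x) = (if y ∈ S0 then y else M - y) := hxy
        split_ifs at h2 <;> omega
    have h2 := Finset.card_filter_add_card_filter_not (s := Icc 1 hh)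
      (p := fun x => x ∉ S0 ∧ M - x ∉ S0)
    rw [Nat.card_Icc] at h2
    rw [hS0card] at h1
    have h3 : Rlo.card = ((Icc 1 hh).filter (fun x => x ∉ S0 ∧ M - x ∉ S0)).card := rfl
    omega
  obtain ⟨t, ht⟩ : ∃ t, m = p + 2 * t := by
    obtain ⟨k, hk⟩ := hm
    obtain ⟨l, hl⟩ := hpodd
    exact ⟨k - l, by omega⟩
  have htR : t ≤ Rlo.card := by omega
  obtain ⟨T, hTR, hTcard⟩ := Finset.exists_subset_card_eq htR
  have hTmem : ∀ x ∈ T, 1 ≤ x ∧ x ≤ hh ∧ x ∉ S0 ∧ M - x ∉ S0 := by
    intro x hx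
    have := hTR hx
    rw [mem_filter, mem_Icc] at this
    exact ⟨this.1.1, this.1.2, this.2.1, this.2.2⟩
  let S1 : Finset ℕ := T ∪ T.image (fun x => M - x)
  have hS1mem : ∀ x ∈ S1, 1 ≤ x ∧ x < M ∧ x ∉ S0 := by
    intro x hx
    rcases mem_union.mp hx with h | h
    · have := hTmem x h
      exact ⟨this.1, by omega, this.2.2.1⟩
    · obtain ⟨y, hy, rfl⟩ := mem_image.mp h
      have := hTmem y hy
      exact ⟨by omega, by omega, this.2.2.2⟩
  have hS1sym : ∀ x ∈ S1, M - x ∈ S1 := by
    intro x hx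
    rcases mem_union.mp hx with h | h
    · exact mem_union_right _ (mem_image_of_mem _ h)
    · obtain ⟨y, hy, rfl⟩ := mem_image.mp h
      have := hTmem y hy
      apply mem_union_left
      have h2 : M - (M - y) = y := by omega
      rw [h2]
      exact hy
  have hS1card : S1.card = 2 * t := by
    show (T ∪ T.image (fun x => M - x)).card = 2 * t
    rw [card_union_of_disjoint, card_image_of_injOn, hTcard]
    · ring
    · intro x hx y hy h
      have h1 := hTmem x hx
      have h2 := hTmem y hy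
      have h3 : M - x = M - y := h
      omega
    · rw [Finset.disjoint_left]
      intro x hx hy
      obtain ⟨y, hy', h⟩ := mem_image.mp hy
      have h1 := hTmem x hx
      have h2 := hTmem y hy'
      have h3 : M - y = x := h
      omega
  refine ⟨S0 ∪ S1, ?_, ?_, ?_⟩
  · intro x hx
    rcases mem_union.mp hx with h | h
    · exact ⟨(hS0mem x h).1, (hS0mem x h).2.1⟩
    · exact ⟨(hS1mem x h).1, (hS1mem x h).2.1⟩
  · rw [card_union_of_disjoint, hS0card, hS1card]
    · omega
    · rw [Finset.disjoint_left]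
      intro x hx hy
      exact (hS1mem x hy).2.2 hx
  · rw [sum_union]
    · rw [hS0sum, symm_sum S1 (fun x hx => ⟨(hS1mem x hx).1, (hS1mem x hx).2.1⟩) hS1sym,
        add_zero]
    · rw [Finset.disjoint_left]
      intro x hx hy
      exact (hS1mem x hy).2.2 hx

/-- The classification. -/
theorem main {m n : ℕ} (hm : 1 ≤ m) (hn : 1 ≤ n) :
    (A m n).det ≠ 0 ↔ Odd m ∧ Odd n ∧ min m n < (m + n + 1).minFac := by
  constructor
  · intro h
    by_contra hcon
    apply h
    have hex : ∃ S : Finset ℕ, (∀ a ∈ S, 1 ≤ a ∧ a < m + n + 1) ∧ S.card = m ∧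
        ∑ a ∈ S, lam (m + n + 1) a = 0 := by
      rcases Nat.even_or_odd m with h1 | h1
      · exact exists_even_m h1
      · rcases Nat.even_or_odd n with h2 | h2
        · exact exists_even_n h2
        · apply exists_odd h1 h2
          by_contra h3
          exact hcon ⟨h1, h2, not_le.mp h3⟩
    obtain ⟨S, h1, h2, h3⟩ := hex
    obtain ⟨s, hs, hs0⟩ := to_fin S h1 h2 h3
    exact sing s hs hs0
  · rintro ⟨h1, h2, h3⟩
    apply nonsing
    intro s hs h0
    have hModd : Odd (m + n + 1) := by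
      obtain ⟨k, hk⟩ := h1
      obtain ⟨l, hl⟩ := h2
      exact ⟨k + l + 1, by omega⟩
    let S : Finset ℕ := univ.image (fun i : Fin m => (s i : ℕ) + 1)
    have hinj : Function.Injective (fun i : Fin m => (s i : ℕ) + 1) := by
      intro i j h
      apply hs
      apply Fin.ext
      have : (s i : ℕ) + 1 = (s j : ℕ) + 1 := h
      omega
    have hcard : S.card = m := by
      show (univ.image (fun i : Fin m => (s i : ℕ) + 1)).card = m
      rw [card_image_of_injective _ hinj, card_univ, Fintype.card_fin]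
    have hSmem : ∀ a ∈ S, 1 ≤ a ∧ a < m + n + 1 := by
      intro a ha
      obtain ⟨i, _, rfl⟩ := mem_image.mp ha
      have := (s i).2
      omega
    have hsum : ∑ a ∈ S, 2 * Real.cos (Real.pi * a / (m + n + 1 : ℕ)) = 0 := by
      rw [← h0]
      show ∑ a ∈ univ.image (fun i : Fin m => (s i : ℕ) + 1), lam (m + n + 1) a = _
      rw [sum_image (fun i _ j _ h => hinj h)]
    apply VanishNT.cos_sum_ne hModd (by omega) S hSmem (by rw [hcard]; exact h1) _ hsum
    rw [hcard]
    rcases min_lt_iff.mp h3 with h4 | h4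
    · left; exact h4
    · right
      have : m + n + 1 - 1 - m = n := by omega
      rw [this]
      exact h4

end Pool.Agent.H11.LM
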