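import Mathlib
set_option autoImplicit false
open SimpleGraph

namespace Pool.Agent.H11.OddC

variable {V : Type*} {G : SimpleGraph V}

lemma not_mem_edges_of_path [DecidableEq V] {x u : V} (q : G.Walk x u) (hq : q.IsPath)
    (hl : 2 ≤ q.length) : s(u, x) ∉ q.edges := by
  cases q with
  | nil => simp at hl
  | @cons _ y _ h' q' =>
    rw [Walk.cons_isPath_iff] at hq
    intro hmem
    rw [Walk.edges_cons, List.mem_cons] at hmem
    rcases hmem with hmem | hmem
    · have : u = y := by
        rcases Sym2.eq_iff.1 hmem with ⟨h1, h2⟩ | ⟨h1, h2⟩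
        · exact absurd h2 (G.ne_of_adj h')
        · exact h1
      subst this
      have := (Walk.isPath_iff_eq_nil (p := q')).1 hq.1
      subst this
      simp at hl
    · exact hq.2 (Walk.snd_mem_support_of_mem_edges _ hmem)

lemma path_or_cycle [DecidableEq V] {u v : V} (p : G.Walk u v) :
    (∃ p' : G.Walk u v, p'.IsPath ∧ p'.length ≤ p.length ∧ (Odd p'.length ↔ Odd p.length)) ∨
    (∃ (x : V) (c : G.Walk x x), c.IsCycle ∧ Odd c.length ∧ c.length ≤ p.length) := by
  induction p with
  | nil => exact Or.inl ⟨.nil, by simp, by simp, by simp⟩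
  | @cons u x v h p ih =>
    rcases ih with ⟨p', hp', hle, hpar⟩ | ⟨y, c, hc, ho, hl⟩
    · by_cases hu : u ∈ p'.support
      · have hlen : (p'.takeUntil u hu).length + (p'.dropUntil u hu).length = p'.length := by
          rw [← Walk.length_append, Walk.take_spec]
        by_cases hev : Odd (p'.takeUntil u hu).length
        · left
          refine ⟨p'.dropUntil u hu, hp'.dropUntil hu, ?_, ?_⟩
          · rw [Walk.length_cons]; omega
          · rw [Walk.length_cons, Nat.odd_add_one, ← hpar, ← hlen, Nat.odd_add]
            constructor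
            · intro h1 h2
              exact absurd (h2.1 hev) (Nat.not_even_iff_odd.2 h1)
            · intro h1
              by_contra h2
              rw [Nat.not_odd_iff_even] at h2
              exact h1 ⟨fun _ => h2, fun _ => hev⟩
        · right
          rw [Nat.not_odd_iff_even] at hev
          refine ⟨u, Walk.cons h (p'.takeUntil u hu), ?_, ?_, ?_⟩
          · rw [Walk.cons_isCycle_iff]
            refine ⟨hp'.takeUntil hu, ?_⟩
            apply not_mem_edges_of_path _ (hp'.takeUntil hu)
            rcases Nat.lt_or_ge (p'.takeUntil u hu).length 2 with h2 | h2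
            · exfalso
              obtain ⟨k, hk⟩ := hev
              have : (p'.takeUntil u hu).length = 0 := by omega
              have := Walk.eq_of_length_eq_zero this
              exact G.ne_of_adj h this.symm
            · exact h2
          · rw [Walk.length_cons]
            exact hev.add_one
          · rw [Walk.length_cons, Walk.length_cons]; omega
      · left
        refine ⟨Walk.cons h p', ?_, ?_, ?_⟩
        · rw [Walk.cons_isPath_iff]; exact ⟨hp', hu⟩
        · rw [Walk.length_cons, Walk.length_cons]; omega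
        · rw [Walk.length_cons, Walk.length_cons, Nat.odd_add_one, Nat.odd_add_one, hpar]
    · right
      refine ⟨y, c, hc, ho, ?_⟩
      rw [Walk.length_cons]; omega

theorem exists_odd_cycle [DecidableEq V] {v : V} (w : G.Walk v v) (hw : Odd w.length) :
    ∃ (x : V) (c : G.Walk x x), c.IsCycle ∧ Odd c.length ∧ c.length ≤ w.length := by
  rcases path_or_cycle w with ⟨p', hp', -, hpar⟩ | h
  · exfalso
    have := (Walk.isPath_iff_eq_nil (p := p')).1 hp'
    subst this
    simp at hpar
    exact absurd hw (Nat.not_odd_iff_even.2 hpar)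
  · exact h

section BFS

variable [DecidableEq V]

open Classical in
/-- ball of radius `i` around `v` in the graph induced on `S` -/
noncomputable def ball (G : SimpleGraph V) (S : Finset V) (v : V) : ℕ → Finset V
  | 0 => {v}
  | i + 1 => ball G S v i ∪ S.filter (fun w => ∃ u ∈ ball G S v i, G.Adj u w)

variable {S : Finset V} {v : V}

lemma ball_succ (i : ℕ) : ball G S v i ⊆ ball G S v (i + 1) := by
  classical
  rw [ball]; exact Finset.subset_union_left

lemma ball_mono {i j : ℕ} (h : i ≤ j) : ball G S v i ⊆ ball G S v j := by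
  induction j, h using Nat.le_induction with
  | base => exact Finset.Subset.refl _
  | succ j _ ih => exact ih.trans (ball_succ j)

lemma self_mem_ball (i : ℕ) : v ∈ ball G S v i :=
  ball_mono (Nat.zero_le i) (by rw [ball]; exact Finset.mem_singleton_self v)

lemma ball_subset (hv : v ∈ S) (i : ℕ) : ball G S v i ⊆ S := by
  induction i with
  | zero => rw [ball]; exact Finset.singleton_subset_iff.2 hv
  | succ i ih =>
    classical
    rw [ball]
    exact Finset.union_subset ih (Finset.filter_subset _ _)

lemma mem_ball_succ_of_adj {i : ℕ} {x y : V} (hx : x ∈ ball G S v i) (hy : y ∈ S)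
    (h : G.Adj x y) : y ∈ ball G S v (i + 1) := by
  classical
  rw [ball]
  apply Finset.mem_union_right
  rw [Finset.mem_filter]
  exact ⟨hy, x, hx, h⟩

lemma exists_walk (i : ℕ) : ∀ w, w ∈ ball G S v i → (∀ j < i, w ∉ ball G S v j) →
    ∃ p : G.Walk v w, p.length = i := by
  induction i with
  | zero =>
    intro w hw _
    rw [ball, Finset.mem_singleton] at hw
    subst hw
    exact ⟨.nil, rfl⟩
  | succ i ih =>
    classical
    intro w hw hn
    have hw' := hw
    rw [ball, Finset.mem_union, Finset.mem_filter] at hw'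
    rcases hw' with hw' | ⟨hS, u, hu, hadj⟩
    · exact absurd hw' (hn i (Nat.lt_succ_self i))
    · obtain ⟨p, hp⟩ := ih u hu (by
        intro j hj hju
        exact hn (j + 1) (by omega) (mem_ball_succ_of_adj hju hS hadj))
      exact ⟨p.concat hadj, by rw [Walk.length_concat, hp]⟩

/-- level of a vertex -/
noncomputable def lev (G : SimpleGraph V) (S : Finset V) (v w : V) : ℕ :=
  sInf {i | w ∈ ball G S v i}

lemma mem_ball_lev {w : V} {i : ℕ} (h : w ∈ ball G S v i) : w ∈ ball G S v (lev G S v w) :=
  Nat.sInf_mem (s := {i | w ∈ ball G S v i}) ⟨i, h⟩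

lemma lev_le {w : V} {i : ℕ} (h : w ∈ ball G S v i) : lev G S v w ≤ i :=
  Nat.sInf_le (s := {i | w ∈ ball G S v i}) h

lemma not_mem_of_lt_lev {w : V} {i : ℕ} (h : i < lev G S v w) : w ∉ ball G S v i :=
  fun hw => absurd (lev_le hw) (not_le.2 h)

lemma adj_parity {r : ℕ} (hr : ∀ (x : V) (w : G.Walk x x), Odd w.length → 2 * r + 1 < w.length)
    (hv : v ∈ S) {x y : V} (hx : x ∈ ball G S v r) (hy : y ∈ ball G S v r) (h : G.Adj x y) :
    ¬ (Even (lev G S v x) ↔ Even (lev G S v y)) := by
  have h1 : lev G S v y ≤ lev G S v x + 1 :=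
    lev_le (mem_ball_succ_of_adj (mem_ball_lev hx) (ball_subset hv r hy) h)
  have h2 : lev G S v x ≤ lev G S v y + 1 :=
    lev_le (mem_ball_succ_of_adj (mem_ball_lev hy) (ball_subset hv r hx) h.symm)
  have h3 : lev G S v x ≠ lev G S v y := by
    intro heq
    obtain ⟨p, hp⟩ := exists_walk (G := G) (S := S) (v := v) _ x (mem_ball_lev hx)
      (fun j hj => not_mem_of_lt_lev hj)
    obtain ⟨q, hq⟩ := exists_walk (G := G) (S := S) (v := v) _ y (mem_ball_lev hy)
      (fun j hj => not_mem_of_lt_lev hj)
    have hl := lev_le hx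
    have := hr v ((p.concat h).append q.reverse) (by
      rw [Walk.length_append, Walk.length_concat, Walk.length_reverse, hp, hq, heq]
      exact ⟨lev G S v y, by ring⟩)
    rw [Walk.length_append, Walk.length_concat, Walk.length_reverse, hp, hq] at this
    omega
  intro hiff
  have h4 : lev G S v y = lev G S v x + 1 ∨ lev G S v x = lev G S v y + 1 := by omega
  rcases h4 with h4 | h4
  · rw [h4, Nat.even_add_one] at hiff
    tauto
  · rw [h4, Nat.even_add_one] at hiff
    tauto

/-- `I` is independent, as a set of pairs -/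
def Ind (G : SimpleGraph V) (I : Finset V) : Prop := ∀ x ∈ I, ∀ y ∈ I, ¬ G.Adj x y


/-- glue the two-coloured ball with two independent sets of the remaining part -/
lemma glue {i r : ℕ} (hi : i ≤ r)
    (hr : ∀ (x : V) (w : G.Walk x x), Odd w.length → 2 * r + 1 < w.length)
    (hv : v ∈ S) {T : Finset V} (hT : T ⊆ S) (hdis : Disjoint T (ball G S v i))
    (hsep : ∀ x ∈ ball G S v i, ∀ y ∈ T, ¬ G.Adj x y)
    {I J : Finset V} (hI : I ⊆ T) (hJ : J ⊆ T) (hIJ : Disjoint I J) (hi1 : Ind G I)
    (hj1 : Ind G J) :
    ∃ I' J' : Finset V, I' ⊆ S ∧ J' ⊆ S ∧ Disjoint I' J' ∧ Ind G I' ∧ Ind G J' ∧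
      I'.card + J'.card = I.card + J.card + (ball G S v i).card := by
  classical
  set B := ball G S v i with hB
  set E := B.filter (fun w => Even (lev G S v w)) with hE
  set O := B.filter (fun w => ¬ Even (lev G S v w)) with hO
  have hBr : B ⊆ ball G S v r := ball_mono hi
  have hEB : E ⊆ B := Finset.filter_subset _ _
  have hOB : O ⊆ B := Finset.filter_subset _ _
  have hBS : B ⊆ S := ball_subset hv i
  have hEind : Ind G E := by
    intro x hx y hy hxy
    rw [hE, Finset.mem_filter] at hx hy
    exact adj_parity hr hv (hBr hx.1) (hBr hy.1) hxy ⟨fun _ => hy.2, fun _ => hx.2⟩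
  have hOind : Ind G O := by
    intro x hx y hy hxy
    rw [hO, Finset.mem_filter] at hx hy
    exact adj_parity hr hv (hBr hx.1) (hBr hy.1) hxy
      ⟨fun h => absurd h hx.2, fun h => absurd h hy.2⟩
  have key : ∀ (A C : Finset V), A ⊆ T → C ⊆ B → Ind G A → Ind G C → Ind G (A ∪ C) := by
    intro A C hA hC hAi hCi x hx y hy hxy
    rw [Finset.mem_union] at hx hy
    rcases hx with hx | hx <;> rcases hy with hy | hy
    · exact hAi x hx y hy hxy
    · exact hsep y (hC hy) x (hA hx) hxy.symm
    · exact hsep x (hC hx) y (hA hy) hxy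
    · exact hCi x hx y hy hxy
  have hdEO : Disjoint E O := Finset.disjoint_filter_filter_not _ _ _
  have hTE : ∀ A C : Finset V, A ⊆ T → C ⊆ B → Disjoint A C := fun A C hA hC =>
    Finset.disjoint_of_subset_left hA (Finset.disjoint_of_subset_right hC hdis)
  refine ⟨I ∪ E, J ∪ O, Finset.union_subset (hI.trans hT) (hEB.trans hBS),
    Finset.union_subset (hJ.trans hT) (hOB.trans hBS), ?_, key I E hI hEB hi1 hEind,
    key J O hJ hOB hj1 hOind, ?_⟩
  · rw [Finset.disjoint_union_left, Finset.disjoint_union_right, Finset.disjoint_union_right]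
    exact ⟨⟨hIJ, hTE _ _ hI hOB⟩, ⟨(hTE _ _ hJ hEB).symm, hdEO⟩⟩
  · rw [Finset.card_union_of_disjoint (hTE _ _ hI hEB), Finset.card_union_of_disjoint (hTE _ _ hJ hOB)]
    have : E.card + O.card = B.card := by
      rw [hE, hO]
      exact Finset.card_filter_add_card_filter_not _
    omega

lemma card_ball_ge {r : ℕ} (hne : ∀ i < r, ball G S v (i + 1) ≠ ball G S v i) :
    ∀ i ≤ r, i + 1 ≤ (ball G S v i).card := by
  intro i
  induction i with
  | zero => intro _; rw [ball, Finset.card_singleton]
  | succ i ih =>
    intro hi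
    have h1 := ih (by omega)
    have h2 : ball G S v i ⊂ ball G S v (i + 1) :=
      Finset.ssubset_iff_subset_ne.2 ⟨ball_succ i, fun h => hne i (by omega) h.symm⟩
    have := Finset.card_lt_card h2
    omega

lemma exists_small_layer {m k t : ℕ} {N : ℕ} (hk : 0 < k) (hN : N ≤ k * t)
    (hS : ∀ i, (ball G S v i).card ≤ N) :
    ∃ i, m ≤ i ∧ i < m + k ∧ (ball G S v (i + 1)).card ≤ (ball G S v i).card + t := by
  by_contra hcon
  push Not at hcon
  have : ∀ j ≤ k, j * (t + 1) ≤ (ball G S v (m + j)).card := by
    intro j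
    induction j with
    | zero => intro _; simp
    | succ j ih =>
      intro hj
      have h1 := ih (by omega)
      have h2 := hcon (m + j) (by omega) (by omega)
      rw [show m + (j + 1) = m + j + 1 by ring, show (j + 1) * (t + 1) = j * (t + 1) + (t + 1) by ring]
      omega
  have h1 := this k le_rfl
  have h2 := hS (m + k)
  have h3 : k * (t + 1) = k * t + k := by ring
  omega

theorem main_ind {N m t : ℕ} (hm : 0 < m) (hN : N ≤ m * t)
    (hr : ∀ (x : V) (w : G.Walk x x), Odd w.length → 2 * (2 * m) + 1 < w.length) :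
    ∀ (n : ℕ) (S : Finset V), S.card = n → n ≤ N →
    ∃ I J : Finset V, I ⊆ S ∧ J ⊆ S ∧ Disjoint I J ∧ Ind G I ∧ Ind G J ∧
      m * S.card ≤ m * (I.card + J.card) + t * S.card := by
  intro n
  induction n using Nat.strong_induction_on with
  | _ n ih =>
    intro S hSn hnN
    rcases S.eq_empty_or_nonempty with hS | ⟨v, hv⟩
    · subst hS
      exact ⟨∅, ∅, by simp, by simp, by simp, by intro x hx; simp at hx,
        by intro x hx; simp at hx, by simp⟩
    · by_cases hA : ∃ i < 2 * m, ball G S v (i + 1) = ball G S v i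
      · obtain ⟨i, hi, hb⟩ := hA
        set T := S \ ball G S v i with hT
        have hcard : T.card + (ball G S v i).card = S.card :=
          Finset.card_sdiff_add_card_eq_card (ball_subset hv i)
        have hpos : 0 < (ball G S v i).card := Finset.card_pos.2 ⟨v, self_mem_ball i⟩
        obtain ⟨I, J, hI, hJ, hIJ, hi1, hj1, hc⟩ := ih T.card (by omega) T rfl (by omega)
        obtain ⟨I', J', h1, h2, h3, h4, h5, h6⟩ := glue (i := i) (r := 2 * m) (by omega) hr hv
          (T := T) Finset.sdiff_subset Finset.sdiff_disjoint (by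
            intro x hx y hy hxy
            rw [hT, Finset.mem_sdiff] at hy
            exact hy.2 (hb ▸ mem_ball_succ_of_adj hx hy.1 hxy)) hI hJ hIJ hi1 hj1
        refine ⟨I', J', h1, h2, h3, h4, h5, ?_⟩
        rw [h6, ← hcard]
        nlinarith [Nat.zero_le (t * (ball G S v i).card)]
      · push Not at hA
        have hge := card_ball_ge (G := G) (S := S) (v := v) hA
        obtain ⟨i, hi1', hi2', hi3'⟩ := exists_small_layer (G := G) (S := S) (v := v) (m := m) (k := m)
          (t := t) (N := N) hm hN
          (fun i => (Finset.card_le_card (ball_subset hv i)).trans (by omega))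
        set T := S \ ball G S v (i + 1) with hT
        have hcard : T.card + (ball G S v (i + 1)).card = S.card :=
          Finset.card_sdiff_add_card_eq_card (ball_subset hv (i + 1))
        have hpos : 0 < (ball G S v (i + 1)).card := Finset.card_pos.2 ⟨v, self_mem_ball _⟩
        have hbig : m ≤ (ball G S v (i + 1)).card := by
          have := hge (i + 1) (by omega)
          omega
        obtain ⟨I, J, hI, hJ, hIJ, hi1, hj1, hc⟩ := ih T.card (by omega) T rfl (by omega)
        obtain ⟨I', J', h1, h2, h3, h4, h5, h6⟩ := glue (i := i) (r := 2 * m) (by omega) hr hv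
          (T := T) Finset.sdiff_subset
          (Finset.disjoint_of_subset_right (ball_succ i) Finset.sdiff_disjoint) (by
            intro x hx y hy hxy
            rw [hT, Finset.mem_sdiff] at hy
            exact hy.2 (mem_ball_succ_of_adj hx hy.1 hxy)) hI hJ hIJ hi1 hj1
        refine ⟨I', J', h1, h2, h3, h4, h5, ?_⟩
        rw [h6, ← hcard]
        have e1 : m * (ball G S v (i + 1)).card ≤ m * ((ball G S v i).card + t) :=
          Nat.mul_le_mul_left m hi3'
        have e2 : t * m ≤ t * (ball G S v (i + 1)).card := Nat.mul_le_mul_left t hbig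
        nlinarith

/-- If the `n`-vertex graph `G` has no odd closed walk of length at most `4 m + 1`, and `n ≤ m t`,
then some independent set has size at least `(n - t n / m) / 2`. -/
theorem indep_bound [Fintype V] {m t α : ℕ} (hm : 0 < m) (hN : Fintype.card V ≤ m * t)
    (hr : ∀ (x : V) (w : G.Walk x x), Odd w.length → 2 * (2 * m) + 1 < w.length)
    (hα : ∀ s : Finset V, G.IsIndepSet (s : Set V) → s.card ≤ α) :
    m * Fintype.card V ≤ m * (2 * α) + t * Fintype.card V := by
  obtain ⟨I, J, -, -, -, h4, h5, h6⟩ := main_ind (G := G) hm hN hr (Fintype.card V) Finset.univ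
    (Finset.card_univ) le_rfl
  have hI : I.card ≤ α := hα I (by
    intro x hx y hy _
    exact h4 x hx y hy)
  have hJ : J.card ≤ α := hα J (by
    intro x hx y hy _
    exact h5 x hx y hy)
  rw [Finset.card_univ] at h6
  have : m * (I.card + J.card) ≤ m * (2 * α) := Nat.mul_le_mul_left m (by omega)
  omega

end BFS

end Pool.Agent.H11.OddC
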